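import Pool.Agent.H3.Bell2.TB

set_option autoImplicit false

/-!
# The bound for the number of collisions
-/

namespace Pool.Agent.H3.Bell2

open Pool.Agent.H3.Bell
open Pool.Agent.H3.Bell.Om

theorem sq_le_nine (q : ℕ) (h : 0 < q) : (2 * q + 1) ^ 2 ≤ 9 * q ^ 2 := by nlinarith

theorem TT_bound (s i : ℕ) (hs : 1 ≤ s) (hi : 1 ≤ i) (hi2 : i ≤ 11 * s) :
    TT (5 * s) (2 * i) * 2 ^ (11 * s) ≤ 764411904 * 4 ^ i := by
  obtain ⟨m, hm⟩ : ∃ m, 2 * (5 * s) = m + 4 := ⟨10 * s - 4, by omega⟩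
  obtain ⟨A, hA1, hA2⟩ := exists_sol (5 * s) i
  by_cases hcase : i + 6 < 10 * s
  · have h0 : A = ∅ := by
      rw [Finset.eq_empty_iff_forall_notMem]
      intro z hz
      refine no_small_sol hm hi ?_ (hA2 z hz).1 (hA2 z hz).2
      rw [div_lt_one (by positivity)]
      have h1 : (16 : ℝ) * 2 ^ i = 2 ^ (i + 4) := by rw [pow_add]; norm_num; ring
      rw [h1]
      exact pow_lt_pow_right₀ (by norm_num) (by omega)
    rw [h0, Finset.card_empty] at hA1
    have h1 : TT (5 * s) (2 * i) = 0 := by omega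
    rw [h1, zero_mul]
    exact Nat.zero_le _
  · push Not at hcase
    set s1 := (i + 7 - 10 * s) / 2 with hs1
    set s2 := (i + 3 - 5 * s) / 2 with hs2
    have a1 : 2 * s1 + 10 * s ≤ i + 7 := by omega
    have a2 : i + 6 ≤ 2 * s1 + 10 * s := by omega
    have a3 : 2 * s2 + 5 * s ≤ i + 3 := by omega
    have a4 : i + 2 ≤ 2 * s2 + 5 * s := by omega
    have key := count_three (5 * s) m i (2 ^ s1) (2 ^ s2) (2 ^ (2 * s + 2)) hm (by positivity)
      (by positivity) (by positivity) (by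
        rw [div_le_iff₀ (by positivity)]
        push_cast
        have h1 : (16 : ℝ) * 2 ^ i = 2 ^ (i + 4) := by rw [pow_add]; norm_num; ring
        rw [h1, ← pow_mul, ← pow_add]
        exact pow_le_pow_right₀ (by norm_num) (by omega)) (by
        rw [div_le_iff₀ (by positivity)]
        push_cast
        have h1 : (4 : ℝ) * 2 ^ i = 2 ^ (i + 2) := by rw [pow_add]; norm_num; ring
        rw [h1, ← pow_mul, ← pow_add]
        exact pow_le_pow_right₀ (by norm_num) (by omega)) (by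
        rw [← mul_div_assoc, div_le_iff₀ (by positivity)]
        push_cast
        have h1 : (2 : ℝ) * (144 * (2 ^ i) ^ 2) = 288 * 2 ^ (i * 2) := by
          rw [← pow_mul]; ring
        rw [h1, ← pow_mul, ← pow_mul, ← pow_add]
        have h2 : (288 : ℝ) * 2 ^ (i * 2) ≤ 2 ^ 9 * 2 ^ (i * 2) :=
          mul_le_mul_of_nonneg_right (by norm_num) (by positivity)
        refine h2.trans ?_
        rw [← pow_add]
        exact pow_le_pow_right₀ (by norm_num) (by omega)) A (fun z hz => (hA2 z hz).1)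
    have b1 := sq_le_nine (2 ^ s1) (by positivity)
    have b2 := sq_le_nine (2 ^ s2) (by positivity)
    have b3 := sq_le_nine (2 ^ (2 * s + 2)) (by positivity)
    calc TT (5 * s) (2 * i) * 2 ^ (11 * s) ≤ A.card * 2 ^ (11 * s) := Nat.mul_le_mul_right _ hA1
      _ ≤ ((32 * (2 * 2 ^ (2 * s + 2) + 1) ^ 2 * (2 * 2 ^ s2 + 1) ^ 2) * (2 * (2 * 2 ^ s1 + 1) ^ 2))
          * 2 ^ (11 * s) := Nat.mul_le_mul_right _ key
      _ ≤ ((32 * (9 * (2 ^ (2 * s + 2)) ^ 2) * (9 * (2 ^ s2) ^ 2)) * (2 * (9 * (2 ^ s1) ^ 2)))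
          * 2 ^ (11 * s) := by gcongr
      _ = 46656 * 2 ^ ((2 * s1 + 10 * s) + (2 * s2 + 5 * s) + 4) := by
          have e : (2 * s1 + 10 * s) + (2 * s2 + 5 * s) + 4 =
              (2 * s + 2) * 2 + s2 * 2 + s1 * 2 + 11 * s := by ring
          have e2 : ∀ X Y Z T : ℕ, ((32 * (9 * X ^ 2) * (9 * Y ^ 2)) * (2 * (9 * Z ^ 2))) * T =
              46656 * (X ^ 2 * Y ^ 2 * Z ^ 2 * T) := by intro X Y Z T; ring
          rw [e2, e, ← pow_mul, ← pow_mul, ← pow_mul, ← pow_add, ← pow_add, ← pow_add]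
      _ ≤ 46656 * 2 ^ ((i + 7) + (i + 3) + 4) := by
          apply Nat.mul_le_mul_left
          exact Nat.pow_le_pow_right (by norm_num) (by omega)
      _ = 764411904 * 4 ^ i := by
          have e : (i + 7) + (i + 3) + 4 = 14 + 2 * i := by ring
          rw [e, pow_add, pow_mul]
          norm_num
          ring

theorem sum_two_pow (r : ℕ) : ∑ i ∈ Finset.range r, (2 : ℝ) ^ (i + 1) ≤ 2 * 2 ^ r := by
  induction r with
  | zero => norm_num
  | succ r ih =>
    rw [Finset.sum_range_succ, pow_succ 2 r]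
    linarith

theorem CC_bound (s : ℕ) (hs : 1 ≤ s) :
    (CC (5 * s) (11 * s) : ℝ) ≤ 1528823810 * 2 ^ (11 * s) := by
  have h := CC_le (5 * s) (11 * s)
  refine h.trans ?_
  rw [mul_comm (1528823810 : ℝ)]
  apply mul_le_mul_of_nonneg_left _ (by positivity)
  have h1 : ∀ i ∈ Finset.range (11 * s), (TT (5 * s) (2 * (i + 1)) : ℝ) / 2 ^ (i + 1) ≤
      764411904 * 2 ^ (i + 1) / 2 ^ (11 * s) := by
    intro i hi
    rw [Finset.mem_range] at hi
    have h2 := TT_bound s (i + 1) hs (by omega) (by omega)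
    have h3 : (TT (5 * s) (2 * (i + 1)) : ℝ) * 2 ^ (11 * s) ≤ 764411904 * 4 ^ (i + 1) := by
      exact_mod_cast h2
    rw [div_le_div_iff₀ (by positivity) (by positivity)]
    refine h3.trans (le_of_eq ?_)
    have : (4 : ℝ) = 2 * 2 := by norm_num
    rw [this, mul_pow]
    ring
  have h4 := Finset.sum_le_sum h1
  rw [← Finset.sum_div, ← Finset.mul_sum] at h4
  have h5 : 764411904 * ∑ i ∈ Finset.range (11 * s), (2 : ℝ) ^ (i + 1) / 1 ≤
      764411904 * (2 * 2 ^ (11 * s)) := by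
    simp only [div_one]
    exact mul_le_mul_of_nonneg_left (sum_two_pow _) (by norm_num)
  have h6 : (764411904 * ∑ i ∈ Finset.range (11 * s), (2 : ℝ) ^ (i + 1)) / 2 ^ (11 * s) ≤
      764411904 * 2 := by
    rw [div_le_iff₀ (by positivity)]
    simp only [div_one] at h5
    linarith
  linarith

end Pool.Agent.H3.Bell2
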