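import Pool.Agent.H3.Bell2.Coll

set_option autoImplicit false

/-!
# Counting elements of `ℤ[ω]` in boxes and on circles
-/

namespace Pool.Agent.H3.Bell2

open Pool.Agent.H3.Bell
open Pool.Agent.H3.Bell.Om

/-! ### Boxes -/

theorem N_abs_lt_one {z : OK} (h : |fp z| * |fm z| < 1) : z = 0 := by
  apply N_eq_zero
  have h1 : |(N z : ℝ)| < 1 := by rw [N_eq, abs_mul]; exact h
  have h2 : |N z| < 1 := by exact_mod_cast h1
  exact Int.abs_lt_one_iff.1 h2

theorem one_le_N_abs {z : OK} (h : z ≠ 0) : 1 ≤ |fp z| * |fm z| := by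
  by_contra hcon
  push Not at hcon
  exact h (N_abs_lt_one hcon)

/-- the index of a number in the subdivision of `[-B, B]` -/
noncomputable def idx (q : ℕ) (B x : ℝ) : ℤ := ⌊(q : ℝ) * x / B⌋

theorem idx_mem {q : ℕ} {B x : ℝ} (hB : 0 < B) (hx : |x| ≤ B) :
    idx q B x ∈ Finset.Icc (-(q : ℤ)) q := by
  have h := abs_le.1 hx
  have hq : (0 : ℝ) ≤ q := Nat.cast_nonneg q
  rw [Finset.mem_Icc, idx]
  constructor
  · rw [Int.le_floor, le_div_iff₀ hB]
    push_cast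
    nlinarith
  · have h1 : (q : ℝ) * x / B ≤ q := by
      rw [div_le_iff₀ hB]
      nlinarith
    have h2 : ((⌊(q : ℝ) * x / B⌋ : ℤ) : ℝ) ≤ q := (Int.floor_le _).trans h1
    exact_mod_cast h2

theorem idx_close {q : ℕ} {B x y : ℝ} (hq : 0 < q) (hB : 0 < B) (h : idx q B x = idx q B y) :
    |x - y| < B / q := by
  have hq' : (0 : ℝ) < q := by exact_mod_cast hq
  have h1 := Int.abs_sub_lt_one_of_floor_eq_floor h
  have h2 : (q : ℝ) * x / B - q * y / B = (x - y) / (B / q) := by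
    field_simp
  rw [h2, abs_div, abs_of_pos (div_pos hB hq'), div_lt_one (div_pos hB hq')] at h1
  exact h1

theorem card_Icc_q (q : ℕ) : (Finset.Icc (-(q : ℤ)) q).card = 2 * q + 1 := by
  rw [Int.card_Icc]
  omega

theorem box_count (A : Finset OK) (B1 B2 : ℝ) (q : ℕ) (hB1 : 0 < B1) (hB2 : 0 < B2) (hq : 0 < q)
    (h1 : ∀ z ∈ A, |fp z| ≤ B1) (h2 : ∀ z ∈ A, |fm z| ≤ B2) (hB : B1 * B2 ≤ (q : ℝ) ^ 2) :
    A.card ≤ (2 * q + 1) ^ 2 := by
  have hq' : (0 : ℝ) < q := by exact_mod_cast hq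
  have key : A.card ≤ (Finset.Icc (-(q : ℤ)) q ×ˢ Finset.Icc (-(q : ℤ)) q).card := by
    refine Finset.card_le_card_of_injOn (fun z => (idx q B1 (fp z), idx q B2 (fm z))) ?_ ?_
    · intro z hz
      rw [Finset.mem_coe, Finset.mem_product]
      exact ⟨idx_mem hB1 (h1 z hz), idx_mem hB2 (h2 z hz)⟩
    · intro z _ w _ h
      have e1 := idx_close hq hB1 (congrArg Prod.fst h)
      have e2 := idx_close hq hB2 (congrArg Prod.snd h)
      have h3 : z - w = 0 := by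
        apply N_abs_lt_one
        rw [map_sub, map_sub]
        have e3 : |fp z - fp w| * |fm z - fm w| < B1 / q * (B2 / q) :=
          mul_lt_mul'' e1 e2 (abs_nonneg _) (abs_nonneg _)
        have e4 : B1 / q * (B2 / q) ≤ 1 := by
          rw [div_mul_div_comm, div_le_one (by positivity), ← pow_two]
          exact hB
        linarith
      exact sub_eq_zero.1 h3
  rw [Finset.card_product, card_Icc_q] at key
  rw [pow_two]
  exact key

/-! ### Circles -/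

theorem heron {R : Type} [CommRing R] {x1 y1 x2 y2 x3 y3 n : R} (h1 : x1 ^ 2 + y1 ^ 2 = n)
    (h2 : x2 ^ 2 + y2 ^ 2 = n) (h3 : x3 ^ 2 + y3 ^ 2 = n) :
    ((x1 - x2) ^ 2 + (y1 - y2) ^ 2) * ((x2 - x3) ^ 2 + (y2 - y3) ^ 2) *
      ((x1 - x3) ^ 2 + (y1 - y3) ^ 2) =
      4 * n * ((x2 - x1) * (y3 - y1) - (x3 - x1) * (y2 - y1)) ^ 2 := by
  have e12 : (x1 - x2) ^ 2 + (y1 - y2) ^ 2 = 2 * n - 2 * (x1 * x2 + y1 * y2) := by
    linear_combination h1 + h2
  have e23 : (x2 - x3) ^ 2 + (y2 - y3) ^ 2 = 2 * n - 2 * (x2 * x3 + y2 * y3) := by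
    linear_combination h2 + h3
  have e13 : (x1 - x3) ^ 2 + (y1 - y3) ^ 2 = 2 * n - 2 * (x1 * x3 + y1 * y3) := by
    linear_combination h1 + h3
  have eD : ((x2 - x1) * (y3 - y1) - (x3 - x1) * (y2 - y1)) ^ 2 = 3 * n ^ 2
      - (x1 * x2 + y1 * y2) ^ 2 - (x2 * x3 + y2 * y3) ^ 2 - (x1 * x3 + y1 * y3) ^ 2
      + 2 * ((x1 * x2 + y1 * y2) * (x2 * x3 + y2 * y3) - (x1 * x3 + y1 * y3) * n)
      + 2 * ((x2 * x3 + y2 * y3) * (x1 * x3 + y1 * y3) - (x1 * x2 + y1 * y2) * n)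
      + 2 * ((x1 * x3 + y1 * y3) * (x1 * x2 + y1 * y2) - (x2 * x3 + y2 * y3) * n) := by
    linear_combination (x2 ^ 2 + y2 ^ 2 + (x3 ^ 2 + y3 ^ 2) - 2 * (x2 * x3 + y2 * y3)) * h1 +
      (n + (x3 ^ 2 + y3 ^ 2) - 2 * (x1 * x3 + y1 * y3)) * h2 +
      (2 * n - 2 * (x1 * x2 + y1 * y2)) * h3
  have eG : n ^ 3 + 2 * (x1 * x2 + y1 * y2) * (x2 * x3 + y2 * y3) * (x1 * x3 + y1 * y3)
      - n * ((x1 * x2 + y1 * y2) ^ 2 + (x2 * x3 + y2 * y3) ^ 2 + (x1 * x3 + y1 * y3) ^ 2) = 0 := by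
    linear_combination (-(x2 ^ 2 + y2 ^ 2) * (x3 ^ 2 + y3 ^ 2) + (x2 * x3 + y2 * y3) ^ 2) * h1 +
      (-n * (x3 ^ 2 + y3 ^ 2) + (x1 * x3 + y1 * y3) ^ 2) * h2 +
      (-n ^ 2 + (x1 * x2 + y1 * y2) ^ 2) * h3
  rw [e12, e23, e13, eD]
  linear_combination (-4) * eG

/-- the smaller coordinate -/
noncomputable def sml (x y : ℝ) : ℝ := if |y| ≤ |x| then y else x

/-- the larger coordinate -/
noncomputable def lrg (x y : ℝ) : ℝ := if |y| ≤ |x| then x else y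

open Classical in
/-- type and sign -/
noncomputable def tys (x y : ℝ) : Bool × Bool := (decide (|y| ≤ |x|), decide (0 ≤ lrg x y))

theorem sml_le {x y R : ℝ} (hR : 0 ≤ R) (h : x ^ 2 + y ^ 2 = R ^ 2) : |sml x y| ≤ R := by
  have h1 : |sml x y| ^ 2 ≤ R ^ 2 := by
    rw [sq_abs]
    unfold sml
    split_ifs
    · nlinarith [sq_nonneg x]
    · nlinarith [sq_nonneg y]
  exact abs_le_of_sq_le_sq' h1 hR |>.2 |> fun h => by simpa using h

theorem arc_aux {x y x' y' δ : ℝ} (h : x ^ 2 + y ^ 2 = x' ^ 2 + y' ^ 2) (h1 : |y| ≤ |x|)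
    (h2 : |y'| ≤ |x'|) (h3 : 0 ≤ x ↔ 0 ≤ x') (h4 : |y - y'| < δ) :
    (x - x') ^ 2 + (y - y') ^ 2 < 2 * δ ^ 2 := by
  have h5 : |x + x'| = |x| + |x'| := by
    by_cases hx : 0 ≤ x
    · rw [abs_of_nonneg hx, abs_of_nonneg (h3.1 hx), abs_of_nonneg (add_nonneg hx (h3.1 hx))]
    · have hx' : ¬ 0 ≤ x' := fun h => hx (h3.2 h)
      push Not at hx hx'
      rw [abs_of_neg hx, abs_of_neg hx', abs_of_neg (add_neg hx hx')]
      ring
  have h6 : |y + y'| ≤ |x + x'| := by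
    rw [h5]
    exact (abs_add_le y y').trans (add_le_add h1 h2)
  have h7 : |x - x'| * |x + x'| = |y - y'| * |y + y'| := by
    rw [← abs_mul, ← abs_mul, ← abs_neg ((y - y') * (y + y'))]
    congr 1
    linear_combination h
  have h8 : |x - x'| ≤ |y - y'| := by
    by_cases h9 : |x + x'| = 0
    · rw [h5] at h9
      have hx : |x| = 0 := by linarith [abs_nonneg x, abs_nonneg x']
      have hx' : |x'| = 0 := by linarith [abs_nonneg x, abs_nonneg x']
      rw [abs_eq_zero.1 hx, abs_eq_zero.1 hx']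
      simp
    · have h10 : 0 < |x + x'| := lt_of_le_of_ne (abs_nonneg _) (Ne.symm h9)
      have h11 : |x - x'| * |x + x'| ≤ |y - y'| * |x + x'| := by
        rw [h7]
        exact mul_le_mul_of_nonneg_left h6 (abs_nonneg _)
      exact le_of_mul_le_mul_right h11 h10
  have h12 : (x - x') ^ 2 ≤ (y - y') ^ 2 := sq_le_sq.2 h8
  have h13 : (y - y') ^ 2 < δ ^ 2 := by
    rw [← sq_abs]
    exact pow_lt_pow_left₀ h4 (abs_nonneg _) two_ne_zero
  linarith

theorem arc {x y x' y' δ : ℝ} (h : x ^ 2 + y ^ 2 = x' ^ 2 + y' ^ 2) (h1 : tys x y = tys x' y')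
    (h4 : |sml x y - sml x' y'| < δ) : (x - x') ^ 2 + (y - y') ^ 2 < 2 * δ ^ 2 := by
  have h2 : (|y| ≤ |x|) ↔ (|y'| ≤ |x'|) := by
    have := congrArg Prod.fst h1
    simpa [tys] using this
  have h3 : (0 ≤ lrg x y) ↔ (0 ≤ lrg x' y') := by
    have := congrArg Prod.snd h1
    simpa [tys] using this
  by_cases h5 : |y| ≤ |x|
  · have h6 := h2.1 h5
    simp only [sml, lrg, if_pos h5, if_pos h6] at h3 h4
    exact arc_aux h h5 h6 h3 h4
  · have h6 : ¬ |y'| ≤ |x'| := fun h => h5 (h2.2 h)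
    simp only [sml, lrg, if_neg h5, if_neg h6] at h3 h4
    rw [add_comm]
    exact arc_aux (by linarith) (not_le.1 h5).le (not_le.1 h6).le h3 h4

/-- the box of a point on a circle -/
noncomputable def bx (q : ℕ) (n : OK) (P : OK × OK) : ((Bool × Bool) × ℤ) × ((Bool × Bool) × ℤ) :=
  ((tys (fp P.1) (fp P.2), idx q (Real.sqrt (fp n)) (sml (fp P.1) (fp P.2))),
    (tys (fm P.1) (fm P.2), idx q (Real.sqrt (fm n)) (sml (fm P.1) (fm P.2))))

theorem emb_circle (f : OK →+* ℝ) {n : OK} {P : OK × OK} (h : P.1 ^ 2 + P.2 ^ 2 = n) :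
    f P.1 ^ 2 + f P.2 ^ 2 = f n := by
  rw [← h, map_add, map_pow, map_pow]

theorem dist_lt (f : OK →+* ℝ) {n : OK} {q : ℕ} (hq : 0 < q) (hn : 0 < f n) {P Q : OK × OK}
    (hP : P.1 ^ 2 + P.2 ^ 2 = n) (hQ : Q.1 ^ 2 + Q.2 ^ 2 = n)
    (h1 : tys (f P.1) (f P.2) = tys (f Q.1) (f Q.2))
    (h2 : idx q (Real.sqrt (f n)) (sml (f P.1) (f P.2)) =
      idx q (Real.sqrt (f n)) (sml (f Q.1) (f Q.2))) :
    f ((P.1 - Q.1) ^ 2 + (P.2 - Q.2) ^ 2) < 2 * (f n / (q : ℝ) ^ 2) := by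
  have h3 := idx_close hq (Real.sqrt_pos.2 hn) h2
  have h4 := arc (by rw [emb_circle f hP, emb_circle f hQ]) h1 h3
  rw [map_add, map_pow, map_pow, map_sub, map_sub]
  refine h4.trans_le (le_of_eq ?_)
  rw [div_pow, Real.sq_sqrt hn.le]

theorem dist_pos (f : OK →+* ℝ) (hf : ∀ z, f z = 0 → z = 0) {P Q : OK × OK} (h : P ≠ Q) :
    0 < f ((P.1 - Q.1) ^ 2 + (P.2 - Q.2) ^ 2) := by
  rw [map_add, map_pow, map_pow]
  rcases eq_or_lt_of_le (add_nonneg (sq_nonneg (f (P.1 - Q.1))) (sq_nonneg (f (P.2 - Q.2)))) with h1 | h1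
  · exfalso
    have h2 : f (P.1 - Q.1) = 0 := by nlinarith [sq_nonneg (f (P.1 - Q.1)), sq_nonneg (f (P.2 - Q.2))]
    have h3 : f (P.2 - Q.2) = 0 := by nlinarith [sq_nonneg (f (P.1 - Q.1)), sq_nonneg (f (P.2 - Q.2))]
    exact h (Prod.ext (sub_eq_zero.1 (hf _ h2)) (sub_eq_zero.1 (hf _ h3)))
  · exact h1

theorem no_three {n : OK} {q : ℕ} (hq : 0 < q) (hn1 : 0 < fp n) (hn2 : 0 < fm n)
    (hN : 2 * (fp n * fm n) ≤ (q : ℝ) ^ 6) {P Q S : OK × OK}
    (hP : P.1 ^ 2 + P.2 ^ 2 = n) (hQ : Q.1 ^ 2 + Q.2 ^ 2 = n) (hS : S.1 ^ 2 + S.2 ^ 2 = n)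
    (hPQ : P ≠ Q) (hQS : Q ≠ S) (hPS : P ≠ S) (h1 : bx q n P = bx q n Q)
    (h2 : bx q n Q = bx q n S) : False := by
  have hq' : (0 : ℝ) < q := by exact_mod_cast hq
  set D : OK := (Q.1 - P.1) * (S.2 - P.2) - (S.1 - P.1) * (Q.2 - P.2) with hD
  have hh := heron hP hQ hS
  rw [← hD] at hh
  have hb : ∀ {A B : OK × OK}, bx q n A = bx q n B →
      (tys (fp A.1) (fp A.2) = tys (fp B.1) (fp B.2) ∧
      idx q (Real.sqrt (fp n)) (sml (fp A.1) (fp A.2)) =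
        idx q (Real.sqrt (fp n)) (sml (fp B.1) (fp B.2))) ∧
      (tys (fm A.1) (fm A.2) = tys (fm B.1) (fm B.2) ∧
      idx q (Real.sqrt (fm n)) (sml (fm A.1) (fm A.2)) =
        idx q (Real.sqrt (fm n)) (sml (fm B.1) (fm B.2))) := by
    intro A B h
    unfold bx at h
    simp only [Prod.mk.injEq] at h
    exact h
  have h3 := h1.trans h2
  have key : ∀ (f : OK →+* ℝ), (∀ z, f z = 0 → z = 0) → 0 < f n →
      (∀ {A B : OK × OK}, bx q n A = bx q n B → tys (f A.1) (f A.2) = tys (f B.1) (f B.2) ∧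
        idx q (Real.sqrt (f n)) (sml (f A.1) (f A.2)) =
          idx q (Real.sqrt (f n)) (sml (f B.1) (f B.2))) →
      0 < f D ^ 2 ∧ f n * f D ^ 2 < 2 * (f n / (q : ℝ) ^ 2) ^ 3 := by
    intro f hf hn hbf
    obtain ⟨u1, u2⟩ := hbf h1
    obtain ⟨v1, v2⟩ := hbf h2
    obtain ⟨w1, w2⟩ := hbf h3
    have d1 := dist_lt f hq hn hP hQ u1 u2
    have d2 := dist_lt f hq hn hQ hS v1 v2
    have d3 := dist_lt f hq hn hP hS w1 w2
    have p1 := dist_pos f hf hPQ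
    have p2 := dist_pos f hf hQS
    have p3 := dist_pos f hf hPS
    have e := congrArg f hh
    rw [map_mul, map_mul] at e
    have f4 : f 4 = 4 := map_ofNat f 4
    have e2 : f (4 * n * D ^ 2) = 4 * (f n * f D ^ 2) := by
      rw [map_mul, map_mul, map_pow, f4]; ring
    rw [e2] at e
    set ρ := f n / (q : ℝ) ^ 2 with hρ
    have hρp : 0 < ρ := by positivity
    have m1 := mul_lt_mul'' d1 d2 p1.le p2.le
    have m2 := mul_lt_mul'' m1 d3 (mul_pos p1 p2).le p3.le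
    rw [e] at m2
    have m3 : 0 < 4 * (f n * f D ^ 2) := by
      rw [← e]; exact mul_pos (mul_pos p1 p2) p3
    constructor
    · rcases (sq_nonneg (f D)).lt_or_eq with h | h
      · exact h
      · rw [← h] at m3; simp at m3
    · nlinarith
  obtain ⟨a1, a2⟩ := key fp (fun z => fp_inj) hn1 (fun h => (hb h).1)
  obtain ⟨b1, b2⟩ := key fm (fun z => fm_inj) hn2 (fun h => (hb h).2)
  have hDne : D ≠ 0 := by
    intro h
    rw [h, map_zero] at a1
    simp at a1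
  have hND := one_le_N_abs hDne
  have hND2 : 1 ≤ fp D ^ 2 * fm D ^ 2 := by
    have : fp D ^ 2 * fm D ^ 2 = (|fp D| * |fm D|) ^ 2 := by
      rw [mul_pow, sq_abs, sq_abs]
    rw [this]
    nlinarith
  have c1 := mul_lt_mul'' a2 b2 (mul_pos hn1 a1).le (mul_pos hn2 b1).le
  have c2 : fp n * fm n ≤ fp n * fp D ^ 2 * (fm n * fm D ^ 2) := by
    have : fp n * fp D ^ 2 * (fm n * fm D ^ 2) = fp n * fm n * (fp D ^ 2 * fm D ^ 2) := by ring
    rw [this]
    nlinarith [mul_pos hn1 hn2]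
  have c3 : 2 * (fp n / (q : ℝ) ^ 2) ^ 3 * (2 * (fm n / (q : ℝ) ^ 2) ^ 3) =
      4 * (fp n * fm n) ^ 3 / ((q : ℝ) ^ 6) ^ 2 := by
    field_simp
    ring
  rw [c3] at c1
  set ν := fp n * fm n with hν
  have hνp : 0 < ν := mul_pos hn1 hn2
  set Q6 := (q : ℝ) ^ 6 with hQ6
  have hQp : 0 < Q6 := by positivity
  have c4 : ν < 4 * ν ^ 3 / Q6 ^ 2 := lt_of_le_of_lt c2 c1
  rw [lt_div_iff₀ (by positivity)] at c4
  have c5 : 4 * ν ^ 2 ≤ Q6 ^ 2 := by nlinarith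
  nlinarith

theorem circle_count (A : Finset (OK × OK)) (n : OK) (q : ℕ) (hq : 0 < q)
    (hA : ∀ P ∈ A, P.1 ^ 2 + P.2 ^ 2 = n) (hN : 2 * (fp n * fm n) ≤ (q : ℝ) ^ 6) :
    A.card ≤ 32 * (2 * q + 1) ^ 2 := by
  classical
  by_cases hn : n = 0
  · have h1 : A ⊆ {((0 : OK), (0 : OK))} := by
      intro P hP
      have h2 := hA P hP
      by_contra h3
      rw [Finset.mem_singleton] at h3
      have h4 := dist_pos fp (fun z => fp_inj) h3
      simp only [sub_zero] at h4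
      rw [h2, hn, map_zero] at h4
      exact lt_irrefl _ h4
    have h2 := Finset.card_le_card h1
    rw [Finset.card_singleton] at h2
    have : 1 ≤ (2 * q + 1) ^ 2 := Nat.one_le_pow _ _ (by omega)
    omega
  · by_cases hA0 : A = ∅
    · rw [hA0]; simp
    obtain ⟨P0, hP0⟩ := Finset.nonempty_of_ne_empty hA0
    have hpos : ∀ f : OK →+* ℝ, (∀ z, f z = 0 → z = 0) → 0 < f n := by
      intro f hf
      have h1 := emb_circle f (hA P0 hP0)
      rcases (add_nonneg (sq_nonneg (f P0.1)) (sq_nonneg (f P0.2))).lt_or_eq with h | h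
      · rw [← h1]; exact h
      · exact absurd (hf n (by rw [← h1, ← h])) hn
    have hn1 := hpos fp (fun z => fp_inj)
    have hn2 := hpos fm (fun z => fm_inj)
    have hmem : ∀ (f : OK →+* ℝ), 0 < f n → ∀ P ∈ A,
        idx q (Real.sqrt (f n)) (sml (f P.1) (f P.2)) ∈ Finset.Icc (-(q : ℤ)) q := by
      intro f hf P hP
      apply idx_mem (Real.sqrt_pos.2 hf)
      apply sml_le (Real.sqrt_nonneg _)
      rw [Real.sq_sqrt hf.le]
      exact emb_circle f (hA P hP)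
    have key := Finset.card_le_mul_card_image_of_maps_to (s := A)
      (t := ((Finset.univ : Finset (Bool × Bool)) ×ˢ Finset.Icc (-(q : ℤ)) q) ×ˢ
        ((Finset.univ : Finset (Bool × Bool)) ×ˢ Finset.Icc (-(q : ℤ)) q)) (f := bx q n)
      (fun P hP => by
        simp only [bx, Finset.mem_product, Finset.mem_univ, true_and]
        exact ⟨hmem fp hn1 P hP, hmem fm hn2 P hP⟩) 2 (by
        intro b _
        by_contra hcon
        push Not at hcon
        obtain ⟨P, Q, S, hP, hQ, hS, hPQ, hPS, hQS⟩ := Finset.two_lt_card_iff.1 hcon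
        rw [Finset.mem_filter] at hP hQ hS
        exact no_three hq hn1 hn2 hN (hA P hP.1) (hA Q hQ.1) (hA S hS.1) hPQ hQS hPS
          (hP.2.trans hQ.2.symm) (hQ.2.trans hS.2.symm))
    refine key.trans (le_of_eq ?_)
    rw [Finset.card_product, Finset.card_product, card_Icc_q]
    have : (Finset.univ : Finset (Bool × Bool)).card = 4 := by decide
    rw [this]
    ring

end Pool.Agent.H3.Bell2
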