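import Pool.Agent.H3.Bell2.Red

set_option autoImplicit false

/-!
# Collisions of reduced words in the finite quotients
-/

namespace Pool.Agent.H3.Bell2

open Pool.Agent.H3.Bell
open Pool.Agent.H3.Bell.Om

/-! ### Injectivity of the product on reduced words -/

/-- the product, reduced modulo `π'` -/
def rp : List St → Om (ZMod 2) 1
  | [] => 1
  | s :: l => red1 (gen s) * rp l

theorem red1_gprod (l : List St) : red1 (gprod l) = rp l := by
  induction l with
  | nil => exact map_one _
  | cons s l ih =>
    show red1 (gen s * gprod l) = red1 (gen s) * rp l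
    rw [map_mul, ih]

theorem kill (s : St) (x : Om (ZMod 2) 1) : red1 (gen s) * (red1 (gen s) * x) = 0 := by
  rw [← mul_assoc]
  have : red1 (gen s) * red1 (gen s) = 0 := by cases s <;> decide
  rw [this, zero_mul]

theorem step_ne : ∀ (s t : St) (a b c d : ZMod 2), t ≠ s → (⟨a, b, c, d⟩ : Om (ZMod 2) 1) ≠ 0 →
    red1 (gen s) * ⟨a, b, c, d⟩ = 0 → red1 (gen t) * ⟨a, b, c, d⟩ ≠ 0 := by
  intro s t
  cases s <;> cases t <;> decide

theorem rp_ne : ∀ (l : List St), l.IsChain (· ≠ ·) → rp l ≠ 0 := by
  intro l
  induction l with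
  | nil => intro _; decide
  | cons t l ih =>
    intro h
    cases l with
    | nil =>
      show red1 (gen t) * 1 ≠ 0
      rw [mul_one]
      cases t <;> decide
    | cons s l =>
      have h2 := ih h.tail
      rw [List.isChain_cons_cons] at h
      exact step_ne s t _ _ _ _ h.1 h2 (kill s (rp l))

theorem gprod_inj : ∀ (l l' : List St), l.length = l'.length → l.IsChain (· ≠ ·) →
    l'.IsChain (· ≠ ·) → gprod l = gprod l' → l = l' := by
  intro l
  induction l with
  | nil =>
    intro l' h _ _ _
    exact (List.length_eq_zero_iff.1 h.symm).symm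
  | cons s l ih =>
    intro l' h hl hl' he
    cases l' with
    | nil => simp at h
    | cons t l' =>
      by_cases hst : s = t
      · subst hst
        have h1 : gprod l = gprod l' := by
          apply mul_left_cancel' (z := gen s)
          · rw [nrd_gen]; exact pi1_ne
          · exact he
        rw [ih l' (by simpa using h) hl.tail hl'.tail h1]
      · exfalso
        have h2 : rp (s :: t :: l') ≠ 0 := by
          apply rp_ne
          rw [List.isChain_cons_cons]
          exact ⟨hst, hl'⟩
        apply h2
        show red1 (gen s) * rp (t :: l') = 0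
        have h3 : rp (t :: l') = red1 (gen s) * rp l := by
          rw [← red1_gprod, ← he, red1_gprod]
          rfl
        rw [h3]
        exact kill s _

/-! ### Classes -/

/-- the element of the quotient attached to a word -/
def cl (K : ℕ) (l : List St) : Gam K := ((⟨gprod l, gprod_mem l⟩ : S) : Gam K)

theorem gprod_append (l l' : List St) : gprod (l ++ l') = gprod l * gprod l' := by
  induction l with
  | nil => exact (one_mul _).symm
  | cons s l ih =>
    show gen s * gprod (l ++ l') = gen s * gprod l * gprod l'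
    rw [ih, mul_assoc]

theorem cl_append (K : ℕ) (l l' : List St) : cl K (l ++ l') = cl K l * cl K l' := by
  unfold cl
  rw [← Con.coe_mul]
  congr 1
  apply Subtype.ext
  exact gprod_append l l'

theorem cl_cons (K : ℕ) (s : St) (l : List St) : cl K (s :: l) = cl K [s] * cl K l :=
  cl_append K [s] l

theorem cl_nil (K : ℕ) : cl K [] = 1 := rfl

theorem cl_sq (K : ℕ) (s : St) : cl K [s] * cl K [s] = 1 := by
  rw [← cl_append]
  show ((⟨gprod [s, s], gprod_mem _⟩ : S) : Gam K) = ((1 : S) : Gam K)
  rw [Con.eq]
  apply cong_scalar K (c := -pi1) (by decide)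
  show gen s * (gen s * 1) = sc (-pi1)
  rw [mul_one, gen_sq]

theorem cl_reverse (K : ℕ) (l : List St) : cl K l.reverse * cl K l = 1 := by
  induction l with
  | nil => rw [List.reverse_nil, cl_nil, one_mul]
  | cons s l ih =>
    rw [List.reverse_cons, cl_append, cl_cons K s l, mul_assoc, ← mul_assoc (cl K [s]), cl_sq,
      one_mul, ih]

theorem cl_cons_inj (K : ℕ) (s : St) (l l' : List St) :
    cl K (s :: l) = cl K (s :: l') ↔ cl K l = cl K l' := by
  rw [cl_cons, cl_cons K s l']
  exact mul_right_inj _

/-! ### Counting -/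

open Classical in
/-- number of collisions -/
noncomputable def CC (K r : ℕ) : ℕ :=
  ((red r ×ˢ red r).filter (fun q => cl K q.1 = cl K q.2)).card

open Classical in
/-- number of trivial reduced words -/
noncomputable def TT (K n : ℕ) : ℕ := ((red n).filter (fun W => cl K W = 1)).card

theorem CC_zero (K : ℕ) : CC K 0 = 1 := by
  classical
  unfold CC
  have : (red 0 ×ˢ red 0).filter (fun q => cl K q.1 = cl K q.2) = {(([] : List St), ([] : List St))} := by
    ext ⟨l, l'⟩
    simp [red]
    rintro rfl rfl
    rfl
  rw [this, Finset.card_singleton]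

theorem CC_succ (K r : ℕ) (m : ℕ) (hm : ∀ l ∈ red r, (Finset.univ.filter
    (fun s : St => l.head? ≠ some s)).card ≤ m) :
    CC K (r + 1) ≤ m * CC K r + TT K (2 * (r + 1)) := by
  classical
  set A := ((red (r + 1) ×ˢ red (r + 1)).filter (fun q => cl K q.1 = cl K q.2)) with hA
  have hsplit : A.card = (A.filter (fun q => q.1.head? = q.2.head?)).card +
      (A.filter (fun q => ¬ q.1.head? = q.2.head?)).card :=
    (Finset.card_filter_add_card_filter_not _).symm
  have h1 : (A.filter (fun q => q.1.head? = q.2.head?)).card ≤ m * CC K r := by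
    set D := ((red r ×ˢ red r).filter (fun q => cl K q.1 = cl K q.2)) with hD
    have h2 : (A.filter (fun q => q.1.head? = q.2.head?)).card ≤
        (D.sigma (fun q => Finset.univ.filter (fun s : St => q.1.head? ≠ some s))).card := by
      refine Finset.card_le_card_of_surjOn (fun z => (z.2 :: z.1.1, z.2 :: z.1.2)) ?_
      rintro ⟨W, W'⟩ hW
      simp only [Finset.coe_filter, Set.mem_setOf_eq, hA, Finset.mem_filter,
        Finset.mem_product] at hW
      obtain ⟨⟨⟨hW1, hW2⟩, hW3⟩, hW4⟩ := hW
      obtain ⟨s, l, rfl, hl, hs⟩ := mem_red_succ hW1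
      obtain ⟨s', l', rfl, hl', hs'⟩ := mem_red_succ hW2
      simp only [List.head?_cons, Option.some.injEq] at hW4
      subst hW4
      rw [cl_cons_inj] at hW3
      refine ⟨⟨(l, l'), s⟩, ?_, rfl⟩
      simp only [Finset.coe_sigma, Set.mem_sigma_iff, Finset.mem_coe, hD, Finset.mem_filter,
        Finset.mem_product, Finset.mem_univ, true_and]
      exact ⟨⟨⟨hl, hl'⟩, hW3⟩, hs⟩
    refine h2.trans ?_
    rw [Finset.card_sigma]
    calc ∑ q ∈ D, (Finset.univ.filter (fun s : St => q.1.head? ≠ some s)).card
        ≤ ∑ q ∈ D, m := by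
          refine Finset.sum_le_sum fun q hq => hm _ ?_
          rw [hD, Finset.mem_filter, Finset.mem_product] at hq
          exact hq.1.1
      _ = m * CC K r := by
          rw [Finset.sum_const, smul_eq_mul, mul_comm]; rfl
  have h3 : (A.filter (fun q => ¬ q.1.head? = q.2.head?)).card ≤ TT K (2 * (r + 1)) := by
    unfold TT
    refine Finset.card_le_card_of_injOn (fun q => q.2.reverse ++ q.1) ?_ ?_
    · rintro ⟨W, W'⟩ hW
      simp only [Finset.coe_filter, Set.mem_setOf_eq, hA, Finset.mem_filter,
        Finset.mem_product] at hW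
      obtain ⟨⟨⟨hW1, hW2⟩, hW3⟩, hW4⟩ := hW
      simp only [Finset.coe_filter, Set.mem_setOf_eq]
      constructor
      · rw [mem_red] at hW1 hW2 ⊢
        refine ⟨?_, ?_⟩
        · rw [List.length_append, List.length_reverse, hW1.1, hW2.1]; ring
        · rw [List.isChain_append]
          refine ⟨?_, hW1.2, ?_⟩
          · rw [List.isChain_reverse]
            exact hW2.2.imp fun _ _ h => Ne.symm h
          · intro x hx y hy
            rw [List.getLast?_reverse] at hx
            rintro rfl
            apply hW4
            rw [Option.mem_def] at hx hy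
            rw [hx, hy]
      · rw [cl_append, hW3, cl_reverse]
    · rintro ⟨W, W'⟩ hW ⟨V, V'⟩ hV he
      simp only [Finset.coe_filter, Set.mem_setOf_eq, hA, Finset.mem_filter,
        Finset.mem_product, mem_red] at hW hV
      have h4 := List.append_inj he (by
        rw [List.length_reverse, List.length_reverse, hW.1.1.2.1, hV.1.1.2.1])
      rw [List.reverse_inj] at h4
      exact Prod.ext h4.2 h4.1
  have h5 : CC K (r + 1) = A.card := rfl
  rw [h5, hsplit]
  exact Nat.add_le_add h1 h3

theorem CC_le (K r : ℕ) : (CC K r : ℝ) ≤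
    2 ^ r * (3 / 2 + ∑ i ∈ Finset.range r, (TT K (2 * (i + 1)) : ℝ) / 2 ^ (i + 1)) := by
  induction r with
  | zero => rw [CC_zero]; norm_num
  | succ r ih =>
    rw [Finset.sum_range_succ]
    have hpow : (2 : ℝ) ^ (r + 1) * ((TT K (2 * (r + 1)) : ℝ) / 2 ^ (r + 1)) = TT K (2 * (r + 1)) := by
      field_simp
    rcases Nat.eq_zero_or_pos r with h0 | h0
    · subst h0
      have h1 := CC_succ K 0 3 (by
        intro l _
        refine (Finset.card_le_univ _).trans ?_
        decide)
      have h2 : (CC K (0 + 1) : ℝ) ≤ 3 * CC K 0 + TT K (2 * (0 + 1)) := by exact_mod_cast h1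
      rw [CC_zero] at h2
      rw [Finset.sum_range_zero]
      have h3 : (2 : ℝ) ^ (0 + 1) * (3 / 2 + (0 + (TT K (2 * (0 + 1)) : ℝ) / 2 ^ (0 + 1))) =
          3 + TT K (2 * (0 + 1)) := by
        ring
      rw [h3]
      refine h2.trans ?_
      norm_num
    · have h1 := CC_succ K r 2 (by
        intro l hl
        obtain ⟨k, rfl⟩ := Nat.exists_eq_succ_of_ne_zero h0.ne'
        obtain ⟨s, l', rfl, -, -⟩ := mem_red_succ hl
        simp only [List.head?_cons]
        cases s <;> decide)
      have h2 : (CC K (r + 1) : ℝ) ≤ 2 * CC K r + TT K (2 * (r + 1)) := by exact_mod_cast h1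
      calc (CC K (r + 1) : ℝ) ≤ 2 * CC K r + TT K (2 * (r + 1)) := h2
        _ ≤ 2 * (2 ^ r * (3 / 2 + ∑ i ∈ Finset.range r, (TT K (2 * (i + 1)) : ℝ) / 2 ^ (i + 1)))
            + TT K (2 * (r + 1)) := by linarith
        _ = _ := by
            rw [← add_assoc, mul_add (2 ^ (r + 1) : ℝ), hpow]
            ring

end Pool.Agent.H3.Bell2
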