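import Pool.Agent.H3.Bell2.Red

set_option autoImplicit false

/-!
# From a spectral gap to edge expansion and small diameter
-/

namespace Pool.Agent.H3.Bell2

open Pool.Agent.H3.Bell

section

variable {X : Type} [Fintype X] [DecidableEq X] (σ : St → Equiv.Perm X)

/-- the adjacency operator -/
noncomputable def adj : EuclideanSpace ℝ X →ₗ[ℝ] EuclideanSpace ℝ X where
  toFun f := WithLp.toLp 2 (fun x => ∑ s, f (σ s x))
  map_add' f g := by
    ext x
    simp [Finset.sum_add_distrib]
  map_smul' c f := by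
    ext x
    simp [Finset.mul_sum]

theorem adj_apply (f : EuclideanSpace ℝ X) (x : X) : adj σ f x = ∑ s, f (σ s x) := rfl

theorem inner_eq (f g : EuclideanSpace ℝ X) : inner ℝ f g = ∑ x, f x * g x := by
  rw [PiLp.inner_apply]
  refine Finset.sum_congr rfl fun x _ => ?_
  simp [mul_comm]

theorem adj_symm (hσ : ∀ s x, σ s (σ s x) = x) : (adj σ).IsSymmetric := by
  intro f g
  rw [inner_eq, inner_eq]
  simp only [adj_apply, Finset.sum_mul, Finset.mul_sum]
  rw [Finset.sum_comm]
  rw [Finset.sum_comm (s := Finset.univ (α := X))]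
  refine Finset.sum_congr rfl fun s _ => ?_
  rw [← Equiv.sum_comp (σ s) (fun x => f x * g (σ s x))]
  refine Finset.sum_congr rfl fun x _ => ?_
  rw [hσ]

/-- functions with sum zero -/
def zeroSum (X : Type) [Fintype X] : Submodule ℝ (EuclideanSpace ℝ X) where
  carrier := {f | ∑ x, f x = 0}
  zero_mem' := by simp
  add_mem' := by
    intro f g hf hg
    show ∑ x, (f + g) x = 0
    have h1 : ∑ x, (f + g) x = ∑ x, f x + ∑ x, g x := by
      rw [← Finset.sum_add_distrib]; rfl
    rw [h1, hf, hg, add_zero]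
  smul_mem' := by
    intro c f hf
    show ∑ x, (c • f) x = 0
    have h1 : ∑ x, (c • f) x = c * ∑ x, f x := by
      rw [Finset.mul_sum]; rfl
    rw [h1, hf, mul_zero]

omit [DecidableEq X] in
theorem mem_zeroSum {f : EuclideanSpace ℝ X} : f ∈ zeroSum X ↔ ∑ x, f x = 0 := Iff.rfl

theorem adj_zeroSum : ∀ f ∈ zeroSum X, adj σ f ∈ zeroSum X := by
  intro f hf
  rw [mem_zeroSum] at hf ⊢
  simp only [adj_apply]
  rw [Finset.sum_comm]
  refine Finset.sum_eq_zero fun s _ => ?_
  rw [Equiv.sum_comp (σ s) (fun x => f x), hf]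

/-- spectral gap implies the bound for the quadratic form -/
theorem quad_le (hσ : ∀ s x, σ s (σ s x) = x) (c : ℝ)
    (hgap : ∀ (f : X → ℝ) (t : ℝ), (∀ x, ∑ s, f (σ s x) = t * f x) → (∃ x y, f x ≠ f y) → t ≤ c)
    (f : EuclideanSpace ℝ X) (hf : f ∈ zeroSum X) :
    ∑ x, (∑ s, f (σ s x)) * f x ≤ c * ∑ x, f x ^ 2 := by
  set T := (adj σ).restrict (adj_zeroSum σ) with hT
  have hTs : T.IsSymmetric := (adj_symm σ hσ).restrict_invariant (adj_zeroSum σ)
  set n := Module.finrank ℝ (zeroSum X) with hn
  set b := hTs.eigenvectorBasis hn.symm with hb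
  have happ : ∀ i, T (b i) = (hTs.eigenvalues hn.symm i : ℝ) • b i :=
    fun i => hTs.apply_eigenvectorBasis hn.symm i
  have hle : ∀ i, hTs.eigenvalues hn.symm i ≤ c := by
    intro i
    apply hgap (fun x => ((b i : zeroSum X) : EuclideanSpace ℝ X) x)
    · intro x
      have h1 := congrArg (fun w : zeroSum X => (w : EuclideanSpace ℝ X) x) (happ i)
      exact h1
    · by_contra hcon
      push Not at hcon
      have hne : b i ≠ 0 := by
        intro h0
        have := b.orthonormal.1 i
        rw [h0, norm_zero] at this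
        exact zero_ne_one this
      apply hne
      apply Subtype.ext
      have hz := mem_zeroSum.1 (b i).2
      have hX : Nonempty X := by
        by_contra hX
        rw [not_nonempty_iff] at hX
        apply hne
        apply Subtype.ext
        ext x
        exact hX.elim x
      obtain ⟨x0⟩ := hX
      have h2 : ∑ x, ((b i : zeroSum X) : EuclideanSpace ℝ X) x =
          Fintype.card X * ((b i : zeroSum X) : EuclideanSpace ℝ X) x0 := by
        rw [Finset.sum_congr rfl fun x _ => hcon x x0, Finset.sum_const, nsmul_eq_mul,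
          Finset.card_univ]
      rw [h2] at hz
      have hcard : (Fintype.card X : ℝ) ≠ 0 := by
        have : 0 < Fintype.card X := Fintype.card_pos_iff.2 ⟨x0⟩
        exact_mod_cast this.ne'
      have h3 := (mul_eq_zero.1 hz).resolve_left hcard
      ext x
      rw [hcon x x0, h3]
      rfl
  set v : zeroSum X := ⟨f, hf⟩ with hv
  have e1 : inner ℝ (T v) v = ∑ x, (∑ s, f (σ s x)) * f x := by
    rw [Submodule.coe_inner, inner_eq]
    rfl
  have e2 : inner ℝ v v = ∑ x, f x ^ 2 := by
    rw [Submodule.coe_inner, inner_eq]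
    exact Finset.sum_congr rfl fun x _ => (pow_two _).symm
  rw [← e1, ← e2, ← b.sum_inner_mul_inner (T v) v, ← b.sum_inner_mul_inner v v, Finset.mul_sum]
  refine Finset.sum_le_sum fun i _ => ?_
  have h0 : inner ℝ (T v) (b i) = hTs.eigenvalues hn.symm i * inner ℝ v (b i) := by
    rw [hTs v (b i), happ i]
    exact real_inner_smul_right v (b i) (hTs.eigenvalues hn.symm i)
  have h1 : inner ℝ v (b i) * inner ℝ (b i) v = inner ℝ v (b i) ^ 2 := by
    rw [real_inner_comm v (b i)]; ring
  rw [h0, mul_assoc, h1]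
  exact mul_le_mul_of_nonneg_right (hle i) (sq_nonneg _)

/-- the edges leaving a set -/
def bdry (A : Finset X) : Finset (St × X) :=
  (Finset.univ ×ˢ A).filter fun q => σ q.1 q.2 ∉ A

theorem expand (hσ : ∀ s x, σ s (σ s x) = x) (c : ℝ) (hc : c ≤ 3)
    (hgap : ∀ (f : X → ℝ) (t : ℝ), (∀ x, ∑ s, f (σ s x) = t * f x) → (∃ x y, f x ≠ f y) → t ≤ c)
    (A : Finset X) (hA : 2 * A.card ≤ Fintype.card X) :
    (3 - c) / 2 * A.card ≤ (bdry σ A).card := by
  classical
  rcases A.eq_empty_or_nonempty with h0 | hne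
  · rw [h0]; simp
  have hcardX : (0 : ℝ) < Fintype.card X := by
    have : 0 < A.card := hne.card_pos
    exact_mod_cast (by omega : 0 < Fintype.card X)
  set N : ℝ := (Fintype.card X : ℝ) with hN
  set a : ℝ := (A.card : ℝ) with ha
  have ha0 : 0 ≤ a := Nat.cast_nonneg _
  set χ : X → ℝ := fun x => if x ∈ A then 1 else 0 with hχ
  have sχ : ∑ x, χ x = a := by
    rw [ha, hχ]; simp
  have sχ2 : ∑ x, χ x ^ 2 = a := by
    rw [← sχ]
    refine Finset.sum_congr rfl fun x _ => ?_
    simp only [hχ]
    split_ifs <;> norm_num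
  set f : EuclideanSpace ℝ X := WithLp.toLp 2 (fun x => χ x - a / N) with hf
  have hfx : ∀ x, f x = χ x - a / N := fun x => rfl
  have hf0 : f ∈ zeroSum X := by
    rw [mem_zeroSum]
    simp only [hfx]
    rw [Finset.sum_sub_distrib, sχ, Finset.sum_const, nsmul_eq_mul, Finset.card_univ, ← hN]
    field_simp
    ring
  have key := quad_le σ hσ c hgap f hf0
  have e1 : ∑ x, f x ^ 2 = a - a ^ 2 / N := by
    simp only [hfx]
    have : ∀ x, (χ x - a / N) ^ 2 = χ x ^ 2 - 2 * (a / N) * χ x + (a / N) ^ 2 := fun x => by ring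
    simp only [this]
    rw [Finset.sum_add_distrib, Finset.sum_sub_distrib, ← Finset.mul_sum, sχ, sχ2,
      Finset.sum_const, nsmul_eq_mul, Finset.card_univ, ← hN]
    field_simp
    ring
  have e2 : ∑ x, (∑ s, f (σ s x)) * f x = ∑ x, (∑ s, χ (σ s x)) * χ x - 3 * (a ^ 2 / N) := by
    have h1 : ∀ x, (∑ s, f (σ s x)) * f x = (∑ s, χ (σ s x)) * χ x - (a / N) * ∑ s, χ (σ s x)
        - 3 * (a / N) * χ x + 3 * (a / N) ^ 2 := by
      intro x
      simp only [hfx]
      rw [sum_St, sum_St]
      ring
    simp only [h1]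
    rw [Finset.sum_add_distrib, Finset.sum_sub_distrib, Finset.sum_sub_distrib, ← Finset.mul_sum,
      ← Finset.mul_sum, sχ, Finset.sum_const, nsmul_eq_mul, Finset.card_univ, ← hN]
    have h2 : ∑ x, ∑ s, χ (σ s x) = 3 * a := by
      rw [Finset.sum_comm, sum_St, Equiv.sum_comp (σ St.a) χ, Equiv.sum_comp (σ St.b) χ,
        Equiv.sum_comp (σ St.c) χ, sχ]
      ring
    rw [h2]
    field_simp
    ring
  have e3 : ∑ x, (∑ s, χ (σ s x)) * χ x = 3 * a - (bdry σ A).card := by
    have h1 : ∑ x, (∑ s, χ (σ s x)) * χ x = ∑ s, ∑ x ∈ A, χ (σ s x) := by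
      simp only [Finset.sum_mul]
      rw [Finset.sum_comm]
      refine Finset.sum_congr rfl fun s _ => ?_
      rw [← Finset.sum_filter_add_sum_filter_not (Finset.univ) (fun x => x ∈ A)]
      have h2 : ∑ x ∈ Finset.univ.filter (fun x => ¬ x ∈ A), χ (σ s x) * χ x = 0 := by
        refine Finset.sum_eq_zero fun x hx => ?_
        have : χ x = 0 := if_neg (Finset.mem_filter.1 hx).2
        rw [this, mul_zero]
      rw [h2, add_zero]
      have h3 : Finset.univ.filter (fun x => x ∈ A) = A := by ext x; simp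
      rw [h3]
      refine Finset.sum_congr rfl fun x hx => ?_
      have : χ x = 1 := if_pos hx
      rw [this, mul_one]
    have h4 : ((bdry σ A).card : ℝ) = ∑ s, ∑ x ∈ A, (1 - χ (σ s x)) := by
      unfold bdry
      rw [Finset.card_filter, Finset.sum_product]
      push_cast
      refine Finset.sum_congr rfl fun s _ => Finset.sum_congr rfl fun x _ => ?_
      simp only [hχ]
      split_ifs <;> simp_all
    rw [h1, h4]
    simp only [Finset.sum_sub_distrib, Finset.sum_const, nsmul_eq_mul, mul_one]
    rw [Finset.card_univ]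
    have : Fintype.card St = 3 := rfl
    rw [this]
    push_cast
    ring
  rw [e1, e2, e3] at key
  have h5 : a ^ 2 / N ≤ a / 2 := by
    rw [div_le_div_iff₀ hcardX (by norm_num)]
    have : 2 * a ≤ N := by rw [ha, hN]; exact_mod_cast hA
    nlinarith
  nlinarith

/-- the points reached by at most `r` steps -/
noncomputable def bal (x : X) : ℕ → Finset X
  | 0 => {x}
  | r + 1 => bal x r ∪ (Finset.univ : Finset St).biUnion fun s => (bal x r).image (σ s)

theorem bal_mem (x : X) : ∀ (r : ℕ) (y : X), y ∈ bal σ x r →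
    ∃ l : List St, l.length ≤ r ∧ (l.map σ).prod x = y := by
  intro r
  induction r with
  | zero =>
    intro y hy
    rw [bal, Finset.mem_singleton] at hy
    exact ⟨[], le_rfl, by rw [hy]; rfl⟩
  | succ r ih =>
    intro y hy
    rw [bal, Finset.mem_union, Finset.mem_biUnion] at hy
    rcases hy with hy | ⟨s, -, hy⟩
    · obtain ⟨l, hl, h⟩ := ih y hy
      exact ⟨l, by omega, h⟩
    · obtain ⟨z, hz, rfl⟩ := Finset.mem_image.1 hy
      obtain ⟨l, hl, h⟩ := ih z hz
      refine ⟨s :: l, by simpa using hl, ?_⟩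
      rw [List.map_cons, List.prod_cons, Equiv.Perm.mul_apply, h]

theorem bal_growth (x : X) (ε : ℝ) (r : ℕ)
    (hexp : ∀ A : Finset X, 2 * A.card ≤ Fintype.card X → ε * A.card ≤ (bdry σ A).card)
    (h : 2 * (bal σ x r).card ≤ Fintype.card X) :
    (1 + ε / 3) * (bal σ x r).card ≤ (bal σ x (r + 1)).card := by
  classical
  set A := bal σ x r with hA
  have h1 := hexp A h
  have h2 : (bdry σ A).card ≤ 3 * (bal σ x (r + 1) \ A).card := by
    have h3 : (bdry σ A).card ≤
        ((Finset.univ : Finset St) ×ˢ (bal σ x (r + 1) \ A)).card := by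
      refine Finset.card_le_card_of_injOn (fun q => (q.1, σ q.1 q.2)) ?_ ?_
      · intro q hq
        have hq' : q.2 ∈ A ∧ σ q.1 q.2 ∉ A := by
          have := Finset.mem_coe.1 hq
          unfold bdry at this
          rw [Finset.mem_filter, Finset.mem_product] at this
          exact ⟨this.1.2, this.2⟩
        rw [Finset.mem_coe, Finset.mem_product, Finset.mem_sdiff]
        refine ⟨Finset.mem_univ _, ?_, hq'.2⟩
        rw [bal, Finset.mem_union]
        right
        rw [Finset.mem_biUnion]
        exact ⟨q.1, Finset.mem_univ _, Finset.mem_image.2 ⟨q.2, hq'.1, rfl⟩⟩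
      · intro q _ q' _ e
        have e1 := Prod.ext_iff.1 e
        have e2 : q.1 = q'.1 := e1.1
        have e3 : σ q.1 q.2 = σ q'.1 q'.2 := e1.2
        rw [e2] at e3
        exact Prod.ext e2 ((σ q'.1).injective e3)
    rw [Finset.card_product] at h3
    exact h3
  have h4 : A ⊆ bal σ x (r + 1) := by
    rw [bal]
    exact Finset.subset_union_left
  have h5 : (bal σ x (r + 1) \ A).card + A.card = (bal σ x (r + 1)).card :=
    Finset.card_sdiff_add_card_eq_card h4
  have h6 : ((bdry σ A).card : ℝ) ≤ 3 * (bal σ x (r + 1) \ A).card := by exact_mod_cast h2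
  have h7 : ((bal σ x (r + 1) \ A).card : ℝ) + A.card = (bal σ x (r + 1)).card := by
    exact_mod_cast h5
  linarith

theorem bal_large (x : X) (ε : ℝ) (hε : 0 ≤ ε)
    (hexp : ∀ A : Finset X, 2 * A.card ≤ Fintype.card X → ε * A.card ≤ (bdry σ A).card)
    (r : ℕ) : (1 + ε / 3) ^ r ≤ (bal σ x r).card ∨ Fintype.card X < 2 * (bal σ x r).card := by
  induction r with
  | zero =>
    left
    rw [pow_zero, bal, Finset.card_singleton, Nat.cast_one]
  | succ r ih =>
    have hsub : bal σ x r ⊆ bal σ x (r + 1) := by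
      rw [bal]
      exact Finset.subset_union_left
    have hcard := Finset.card_le_card hsub
    by_cases h : 2 * (bal σ x r).card ≤ Fintype.card X
    · rcases ih with ih | ih
      · left
        have h1 := bal_growth σ x ε r hexp h
        calc (1 + ε / 3) ^ (r + 1) = (1 + ε / 3) * (1 + ε / 3) ^ r := pow_succ' _ _
          _ ≤ (1 + ε / 3) * (bal σ x r).card := mul_le_mul_of_nonneg_left ih (by positivity)
          _ ≤ _ := h1
      · omega
    · right
      omega

theorem inv_word (hσ : ∀ s x, σ s (σ s x) = x) (l : List St) (x : X) :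
    (l.reverse.map σ).prod ((l.map σ).prod x) = x := by
  induction l with
  | nil => rfl
  | cons s l ih =>
    rw [List.reverse_cons, List.map_append, List.prod_append, List.map_singleton,
      List.prod_singleton, List.map_cons, List.prod_cons, Equiv.Perm.mul_apply,
      Equiv.Perm.mul_apply, hσ, ih]

theorem diam_le (hσ : ∀ s x, σ s (σ s x) = x) (ε : ℝ) (hε : 0 ≤ ε)
    (hexp : ∀ A : Finset X, 2 * A.card ≤ Fintype.card X → ε * A.card ≤ (bdry σ A).card)
    (r : ℕ) (hr : (Fintype.card X : ℝ) < (1 + ε / 3) ^ r) (x y : X) :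
    ∃ l : List St, l.length ≤ 2 * r ∧ (l.map σ).prod x = y := by
  classical
  have hlarge : ∀ z : X, Fintype.card X < 2 * (bal σ z r).card := by
    intro z
    rcases bal_large σ z ε hε hexp r with h | h
    · exfalso
      have h1 : ((bal σ z r).card : ℝ) ≤ Fintype.card X := by
        exact_mod_cast Finset.card_le_univ _
      linarith
    · exact h
  have hinter : (bal σ x r ∩ bal σ y r).Nonempty := by
    by_contra hcon
    rw [Finset.not_nonempty_iff_eq_empty] at hcon
    have hd : Disjoint (bal σ x r) (bal σ y r) := Finset.disjoint_iff_inter_eq_empty.2 hcon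
    have h1 := Finset.card_union_of_disjoint hd
    have h2 : (bal σ x r ∪ bal σ y r).card ≤ Fintype.card X := Finset.card_le_univ _
    have h3 := hlarge x
    have h4 := hlarge y
    omega
  obtain ⟨z, hz⟩ := hinter
  rw [Finset.mem_inter] at hz
  obtain ⟨l, hl, hlz⟩ := bal_mem σ x r z hz.1
  obtain ⟨l', hl', hlz'⟩ := bal_mem σ y r z hz.2
  refine ⟨l'.reverse ++ l, by rw [List.length_append, List.length_reverse]; omega, ?_⟩
  rw [List.map_append, List.prod_append, Equiv.Perm.mul_apply, hlz, ← hlz', inv_word σ hσ]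

end

end Pool.Agent.H3.Bell2
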