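import Pool.Agent.H3.Bell2.NewB
import Pool.Agent.H3.Bell2.Exp

set_option autoImplicit false

/-!
# The level graphs of the Bellaterra automaton are expanders
-/

namespace Pool.Agent.H3.Bell2

open Pool.Agent.H3.Bell
open Pool.Agent.H3.Bell.Om

/-- eigenfunctions of the adjacency operator on level `n` -/
def Eg (n : ℕ) (t : ℝ) (f : List Bool → ℝ) : Prop :=
  ∀ v : List Bool, v.length = n → ∑ s, f (perm s v) = t * f v

/-- eigenvalues on level `n` -/
def Occ (n : ℕ) (t : ℝ) : Prop := ∃ f, Eg n t f ∧ ∃ u : List Bool, u.length = n ∧ f u ≠ 0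

/-- sum over the children -/
def fbar (f : List Bool → ℝ) (u : List Bool) : ℝ := f (u ++ [false]) + f (u ++ [true])

theorem perm_mem (s : St) : perm s ∈ G := Subgroup.subset_closure ⟨s, rfl⟩

theorem Eg.fbar {n : ℕ} {t : ℝ} {f : List Bool → ℝ} (h : Eg (n + 1) t f) : Eg n t (fbar f) := by
  intro v hv
  have h1 : ∀ s, Bell2.fbar f (perm s v) = f (perm s (v ++ [false])) + f (perm s (v ++ [true])) := by
    intro s
    obtain ⟨σ, hσ⟩ := append_G (perm_mem s) v
    rw [hσ, hσ, Bell2.fbar]
    cases σ
    · simp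
    · simp [add_comm]
  simp only [h1]
  rw [Finset.sum_add_distrib, h _ (by simp [hv]), h _ (by simp [hv]), Bell2.fbar]
  ring

theorem descend {m₀ : ℕ} (hm₀ : ∀ m, m₀ ≤ m → ∀ (f : List Bool → ℝ) (t : ℝ), 297 / 100 ≤ |t| →
    (∀ v : List Bool, v.length = m → ∑ s, f (perm s v) = t * f v) → IsNew m f →
    ∀ u : List Bool, u.length = m → f u = 0) {t : ℝ} (ht : 297 / 100 ≤ |t|) (k : ℕ) :
    Occ (m₀ + k) t → Occ m₀ t := by
  induction k with
  | zero => exact id
  | succ k ih =>
    rintro ⟨f, hf, u, hu, hfu⟩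
    apply ih
    refine ⟨fbar f, hf.fbar, ?_⟩
    by_contra hcon
    push Not at hcon
    apply hfu
    apply hm₀ (m₀ + (k + 1)) (by omega) f t ht hf _ u hu
    intro p y hp
    have h1 := hcon p (by omega)
    unfold Bell2.fbar at h1
    cases y
    · show f (p ++ [true]) = -f (p ++ [false])
      linarith
    · show f (p ++ [false]) = -f (p ++ [true])
      linarith

/-- the permutation of the words of length `n` -/
noncomputable def sg (n : ℕ) (s : St) : Equiv.Perm (W n) := res n ⟨perm s, perm_mem s⟩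

theorem sg_val (n : ℕ) (s : St) (u : W n) : (sg n s u).1 = act s u.1 := rfl

theorem sg_sg (n : ℕ) (s : St) (u : W n) : sg n s (sg n s u) = u := by
  apply Subtype.ext
  rw [sg_val, sg_val, act_act]

theorem finite_occ (n : ℕ) : {t : ℝ | Occ n t}.Finite := by
  let T : Module.End ℝ (W n → ℝ) :=
    { toFun := fun f u => ∑ s, f (sg n s u)
      map_add' := fun f g => by funext u; simp [Finset.sum_add_distrib]
      map_smul' := fun c f => by funext u; simp [Finset.mul_sum] }
  refine (Module.End.finite_hasEigenvalue T).subset ?_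
  rintro t ⟨f, hf, u, hu, hfu⟩
  show Module.End.HasEigenvalue T t
  apply Module.End.hasEigenvalue_of_hasEigenvector (x := fun u : W n => f u.1)
  rw [Module.End.hasEigenvector_iff, Module.End.mem_eigenspace_iff]
  refine ⟨?_, ?_⟩
  · funext w
    exact hf w.1 w.2
  · intro h0
    exact hfu (congrFun h0 ⟨u, hu⟩)

theorem finite_big : {t : ℝ | 297 / 100 ≤ |t| ∧ ∃ n, Occ n t}.Finite := by
  obtain ⟨m₀, -, hm₀⟩ := no_new
  have h1 : (⋃ n ∈ Finset.range (m₀ + 1), {t : ℝ | Occ n t}).Finite :=
    Set.Finite.biUnion (Finset.finite_toSet _) fun n _ => finite_occ n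
  refine h1.subset ?_
  rintro t ⟨ht, n, hn⟩
  rw [Set.mem_iUnion₂]
  by_cases h : n ≤ m₀
  · exact ⟨n, Finset.mem_range.2 (by omega), hn⟩
  · refine ⟨m₀, Finset.mem_range.2 (by omega), ?_⟩
    obtain ⟨k, rfl⟩ := Nat.exists_eq_add_of_le (not_le.1 h).le
    exact descend hm₀ ht k hn

theorem three_aux {a b c z M : ℝ} (ha : |a| ≤ M) (hb : |b| ≤ M) (hc : |c| ≤ M)
    (h : a + b + c = 3 * z) (hz : M ≤ |z|) : a = z ∧ b = z ∧ c = z ∧ |z| = M := by
  have ha' := abs_le.1 ha
  have hb' := abs_le.1 hb
  have hc' := abs_le.1 hc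
  rcases le_or_gt 0 z with h0 | h0
  · rw [abs_of_nonneg h0] at hz ⊢
    refine ⟨?_, ?_, ?_, ?_⟩ <;> linarith
  · rw [abs_of_neg h0] at hz ⊢
    refine ⟨?_, ?_, ?_, ?_⟩ <;> linarith

theorem act_b_zero (n : ℕ) : act St.b (List.replicate n false) = List.replicate n false := by
  induction n with
  | zero => rfl
  | succ n ih =>
    rw [List.replicate_succ]
    show false :: act St.b (List.replicate n false) = _
    rw [ih]

/-- the maximum principle -/
theorem abs_lt_three {n : ℕ} {t : ℝ} {f : List Bool → ℝ} (h : Eg n t f)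
    (hne : ∃ u v : List Bool, u.length = n ∧ v.length = n ∧ f u ≠ f v) : |t| < 3 := by
  by_contra hcon
  push Not at hcon
  obtain ⟨u0, v0, hu0, hv0, huv⟩ := hne
  haveI : Nonempty (W n) := ⟨⟨u0, hu0⟩⟩
  haveI : Finite (W n) := Fintype.finite inferInstance
  obtain ⟨w0, hw0⟩ := Finite.exists_max (fun w : W n => |f w.1|)
  set M := |f w0.1| with hM
  have hle : ∀ u : List Bool, u.length = n → |f u| ≤ M := fun u hu => hw0 ⟨u, hu⟩
  have hMpos : 0 < M := by
    rcases (abs_nonneg (f w0.1)).lt_or_eq with h1 | h1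
    · exact h1
    · exfalso
      apply huv
      have h2 := hle u0 hu0
      have h3 := hle v0 hv0
      rw [hM, ← h1] at h2 h3
      rw [abs_nonpos_iff.1 h2, abs_nonpos_iff.1 h3]
  have hstep : ∀ w : List Bool, w.length = n → |f w| = M → (∀ s, f (perm s w) = t / 3 * f w) ∧
      |t / 3 * f w| = M := by
    intro w hw hfw
    have h1 := h w hw
    rw [sum_St] at h1
    have hl : ∀ s, |f (perm s w)| ≤ M := fun s => hle _ ((length_act s w).trans hw)
    have h2 : M ≤ |t / 3 * f w| := by
      rw [abs_mul, hfw, abs_div]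
      have : (1 : ℝ) ≤ |t| / |3| := by
        rw [abs_of_pos (by norm_num : (0 : ℝ) < 3), le_div_iff₀ (by norm_num)]
        linarith
      nlinarith
    obtain ⟨e1, e2, e3, e4⟩ := three_aux (hl St.a) (hl St.b) (hl St.c)
      (z := t / 3 * f w) (by linarith) h2
    refine ⟨?_, e4⟩
    intro s
    cases s
    · exact e1
    · exact e2
    · exact e3
  have hall : ∀ g ∈ G, ∀ w : List Bool, w.length = n → |f w| = M → |f (g w)| = M := by
    intro g hg
    induction hg using Subgroup.closure_induction with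
    | mem x hx =>
      obtain ⟨s, rfl⟩ := hx
      intro w hw hfw
      rw [(hstep w hw hfw).1 s]
      exact (hstep w hw hfw).2
    | one => intro w _ hfw; exact hfw
    | mul x y hx hy ihx ihy =>
      intro w hw hfw
      rw [Equiv.Perm.mul_apply]
      exact ihx _ ((length_G hy w).trans hw) (ihy w hw hfw)
    | inv x hx ihx =>
      intro w hw hfw
      -- by transitivity and finiteness it is enough to use powers; use the orbit of `w`
      have hfin : ∃ k : ℕ, 0 < k ∧ ∀ u : W n, ((x ^ k : Equiv.Perm (List Bool)) u.1) = u.1 := by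
        refine ⟨orderOf (res n ⟨x, hx⟩), orderOf_pos _, fun u => ?_⟩
        have h1 : res n (⟨x, hx⟩ ^ orderOf (res n ⟨x, hx⟩)) = 1 := by
          rw [map_pow, pow_orderOf_eq_one]
        have h2 := congrArg (fun σ : Equiv.Perm (W n) => (σ u).1) h1
        exact h2
      obtain ⟨k, hk, hk2⟩ := hfin
      have h3 : x⁻¹ w = (x ^ (k - 1) : Equiv.Perm (List Bool)) w := by
        rw [Equiv.Perm.inv_eq_iff_eq, ← Equiv.Perm.mul_apply, ← pow_succ', Nat.sub_add_cancel hk]
        exact (hk2 ⟨w, hw⟩).symm
      rw [h3]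
      have h4 : ∀ j : ℕ, |f ((x ^ j : Equiv.Perm (List Bool)) w)| = M := by
        intro j
        induction j with
        | zero => exact hfw
        | succ j ihj =>
          rw [pow_succ', Equiv.Perm.mul_apply]
          exact ihx _ ((length_G (G.pow_mem hx j) w).trans hw) ihj
      exact h4 _
  have hM2 : ∀ w : List Bool, w.length = n → |f w| = M := by
    intro w hw
    obtain ⟨g, hg, hgw⟩ := transitive n w0.1 w w0.2 hw
    rw [← hgw]
    exact hall g hg _ w0.2 rfl
  have ht3 : |t| = 3 := by
    have h1 := (hstep w0.1 w0.2 rfl).2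
    rw [abs_mul, ← hM, abs_div, abs_of_pos (by norm_num : (0 : ℝ) < 3)] at h1
    have h2 : (|t| / 3 - 1) * M = 0 := by linarith
    rcases mul_eq_zero.1 h2 with h3 | h3
    · linarith
    · exact absurd h3 hMpos.ne'
  rcases abs_choice t with h1 | h1
  · have ht : t = 3 := by rw [← h1]; exact ht3
    have hconst : ∀ (l : List St) (w : List Bool), w.length = n → f (pprod l w) = f w := by
      intro l
      induction l with
      | nil => intro w _; rfl
      | cons s l ih =>
        intro w hw
        show f (perm s (pprod l w)) = f w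
        have hlen : (pprod l w).length = n := (length_G (pprod_mem l) w).trans hw
        rw [(hstep _ hlen (hM2 _ hlen)).1 s, ht, ih w hw]
        ring
    apply huv
    obtain ⟨g, hg, hgw⟩ := transitive n u0 v0 hu0 hv0
    have hgl : ∀ g ∈ G, ∃ l : List St, g = pprod l := by
      intro g hg
      induction hg using Subgroup.closure_induction with
      | mem x hx =>
        obtain ⟨s, rfl⟩ := hx
        exact ⟨[s], (mul_one _).symm⟩
      | one => exact ⟨[], rfl⟩
      | mul x y hx hy ihx ihy =>
        obtain ⟨l, hl⟩ := ihx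
        obtain ⟨l', hl'⟩ := ihy
        refine ⟨l ++ l', ?_⟩
        rw [hl, hl']
        clear hl
        induction l with
        | nil => exact one_mul _
        | cons s l ih =>
          show perm s * pprod l * pprod l' = perm s * pprod (l ++ l')
          rw [mul_assoc, ih]
      | inv x hx ihx =>
        obtain ⟨l, hl⟩ := ihx
        refine ⟨l.reverse, ?_⟩
        rw [inv_eq_iff_mul_eq_one, hl]
        clear hl
        induction l with
        | nil => rfl
        | cons s l ih =>
          have happ : ∀ a b : List St, pprod (a ++ b) = pprod a * pprod b := by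
            intro a b
            induction a with
            | nil => exact (one_mul _).symm
            | cons s a ih2 =>
              show perm s * pprod (a ++ b) = perm s * pprod a * pprod b
              rw [mul_assoc, ih2]
          rw [List.reverse_cons, happ]
          show perm s * pprod l * (pprod l.reverse * (perm s * 1)) = 1
          rw [mul_one, mul_assoc, ← mul_assoc (pprod l), ih, one_mul, perm_mul_self]
    obtain ⟨l, hl⟩ := hgl g hg
    rw [← hgw, hl, hconst l u0 hu0]
  · have ht : t = -3 := by linarith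
    have hlen : (List.replicate n false).length = n := List.length_replicate
    have h2 := (hstep _ hlen (hM2 _ hlen)).1 St.b
    have h3 : perm St.b (List.replicate n false) = List.replicate n false := act_b_zero n
    rw [h3, ht] at h2
    have h4 := hM2 _ hlen
    have h5 : f (List.replicate n false) = 0 := by linarith
    rw [h5, abs_zero] at h4
    exact hMpos.ne h4

theorem exists_gap_of_finite {F : Set ℝ} (hF : F.Finite) (h : ∀ t ∈ F, |t| < 3) :
    ∃ c < 3, ∀ t ∈ F, |t| ≤ c := by
  induction F, hF using Set.Finite.induction_on with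
  | empty => exact ⟨0, by norm_num, fun t ht => absurd ht (Set.notMem_empty t)⟩
  | @insert a F _ _ ih =>
    obtain ⟨c, hc, hc2⟩ := ih fun t ht => h t (Set.mem_insert_of_mem _ ht)
    refine ⟨max c |a|, max_lt hc (h a (Set.mem_insert _ _)), ?_⟩
    intro t ht
    rcases Set.mem_insert_iff.1 ht with rfl | ht
    · exact le_max_right _ _
    · exact (hc2 t ht).trans (le_max_left _ _)

/-- the uniform gap -/
theorem uniform_gap : ∃ c : ℝ, c < 3 ∧ ∀ (n : ℕ) (t : ℝ) (f : List Bool → ℝ), Eg n t f →
    (∃ u v : List Bool, u.length = n ∧ v.length = n ∧ f u ≠ f v) → |t| ≤ c := by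
  have hfin : {t : ℝ | |t| < 3 ∧ 297 / 100 ≤ |t| ∧ ∃ n, Occ n t}.Finite :=
    finite_big.subset fun t ht => ht.2
  obtain ⟨c, hc, hc2⟩ := exists_gap_of_finite hfin fun t ht => ht.1
  refine ⟨max c (297 / 100), max_lt hc (by norm_num), ?_⟩
  intro n t f hf hne
  have h3 := abs_lt_three hf hne
  rcases le_or_gt (297 / 100) |t| with h | h
  · refine (hc2 t ⟨h3, h, n, f, hf, ?_⟩).trans (le_max_left _ _)
    obtain ⟨u, v, hu, hv, huv⟩ := hne
    by_contra hcon
    push Not at hcon
    exact huv ((hcon u hu).trans (hcon v hv).symm)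
  · exact h.le.trans (le_max_right _ _)

/-! ### expansion and diameter -/

theorem gap_W {c : ℝ} (hc : ∀ (n : ℕ) (t : ℝ) (f : List Bool → ℝ), Eg n t f →
    (∃ u v : List Bool, u.length = n ∧ v.length = n ∧ f u ≠ f v) → |t| ≤ c) (n : ℕ)
    (f : W n → ℝ) (t : ℝ) (hf : ∀ x, ∑ s, f (sg n s x) = t * f x) (hne : ∃ x y, f x ≠ f y) :
    t ≤ c := by
  set f' : List Bool → ℝ := fun u => if h : u.length = n then f ⟨u, h⟩ else 0 with hf'
  have hval : ∀ x : W n, f' x.1 = f x := by
    intro x
    rw [hf']
    exact dif_pos x.2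
  refine (le_abs_self t).trans (hc n t f' ?_ ?_)
  · intro v hv
    have h1 := hf ⟨v, hv⟩
    have h2 : ∀ s, f' (perm s v) = f (sg n s ⟨v, hv⟩) := fun s => hval (sg n s ⟨v, hv⟩)
    simp only [h2]
    rw [h1]
    rw [← hval ⟨v, hv⟩]
  · obtain ⟨x, y, hxy⟩ := hne
    exact ⟨x.1, y.1, x.2, y.2, by rw [hval, hval]; exact hxy⟩

theorem card_W (n : ℕ) : Fintype.card (W n) = 2 ^ n := by
  rw [card_vector, Fintype.card_bool]

theorem edge_expansion : ∃ ε : ℝ, 0 < ε ∧ ∀ (n : ℕ) (A : Finset (W n)),
    2 * A.card ≤ Fintype.card (W n) → ε * A.card ≤ (bdry (sg n) A).card := by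
  obtain ⟨c, hc, hc2⟩ := uniform_gap
  refine ⟨(3 - c) / 2, by linarith, ?_⟩
  intro n A hA
  exact expand (sg n) (sg_sg n) c hc.le (gap_W hc2 n) A hA

theorem foldr_act (n : ℕ) (l : List St) (u : W n) :
    ((l.map (sg n)).prod u).1 = l.foldr act u.1 := by
  induction l with
  | nil => rfl
  | cons s l ih =>
    rw [List.map_cons, List.prod_cons, Equiv.Perm.mul_apply, sg_val, ih]
    rfl

theorem diameter : ∃ C : ℕ, ∀ (n : ℕ) (u v : List Bool), u.length = n → v.length = n →
    ∃ l : List St, l.length ≤ C * n ∧ l.foldr act u = v := by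
  obtain ⟨ε, hε, hexp⟩ := edge_expansion
  obtain ⟨k, hk⟩ := pow_unbounded_of_one_lt (2 : ℝ) (by linarith : (1 : ℝ) < 1 + ε / 3)
  refine ⟨2 * k, ?_⟩
  intro n u v hu hv
  rcases Nat.eq_zero_or_pos n with h0 | h0
  · subst h0
    rw [List.length_eq_zero_iff] at hu hv
    exact ⟨[], by simp, by rw [hu, hv]; rfl⟩
  · have hr : (Fintype.card (W n) : ℝ) < (1 + ε / 3) ^ (k * n) := by
      rw [card_W, pow_mul]
      push_cast
      exact pow_lt_pow_left₀ hk (by norm_num) h0.ne'
    obtain ⟨l, hl, h⟩ := diam_le (sg n) (sg_sg n) ε hε.le (hexp n) (k * n) hr ⟨u, hu⟩ ⟨v, hv⟩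
    refine ⟨l, by rw [mul_assoc]; exact hl, ?_⟩
    have := congrArg Subtype.val h
    rw [foldr_act] at this
    exact this

end Pool.Agent.H3.Bell2
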