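import Pool.Agent.H3.Bell.Len

set_option autoImplicit false

/-!
# Strong approximation at `π` and elements exchanging two siblings
-/

namespace Pool.Agent.H3.Bell2

open Pool.Agent.H3.Bell
open Pool.Agent.H3.Bell.Om

theorem red0_sc (m : OK) : red0 (sc m) = Om.C 0 (r0 m) := by
  unfold red0 sc Om.map Om.C
  simp

theorem red0_sc_one {m : OK} (h : r0 m = 1) : red0 (sc m) = 1 := by
  rw [red0_sc, h]; rfl

theorem sc_mul (a b : OK) : sc (a * b) = sc a * sc b := Om.C_mul a b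
theorem sc_add (a b : OK) : sc (a + b) = sc a + sc b := Om.C_add a b
theorem sc_sub (a b : OK) : sc (a - b) = sc a - sc b := Om.C_sub a b
theorem sc_comm (a : OK) (x : Ord) : sc a * x = x * sc a := Om.C_comm a x
theorem sc_one : sc 1 = 1 := Om.C_one

theorem r0_pi0_pow {k : ℕ} (hk : 1 ≤ k) : r0 (pi0 ^ k) = 0 := by
  rw [map_pow]
  have : r0 pi0 = 0 := by decide
  rw [this, zero_pow (by omega)]

theorem red0_pi_pow {k : ℕ} (hk : 1 ≤ k) : red0 (sc (pi0 ^ k)) = 0 := by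
  rw [red0_sc, r0_pi0_pow hk]; rfl

/-- some element of `S` is `≡` a scalar modulo `π^k` with leading coefficient `A` -/
def Lv (k : ℕ) (A : Om (ZMod 2) 0) : Prop :=
  ∃ g : Ord, g ∈ S ∧ ∃ (s : OK) (z : Ord), r0 s = 1 ∧ g = sc s + sc (pi0 ^ k) * z ∧ red0 z = A

theorem Lv.add {k : ℕ} {A B : Om (ZMod 2) 0} (hk : 1 ≤ k) (h1 : Lv k A) (h2 : Lv k B) :
    Lv k (A + B) := by
  obtain ⟨g, hg, s, z, hs, e1, rfl⟩ := h1
  obtain ⟨g', hg', s', z', hs', e2, rfl⟩ := h2
  refine ⟨g * g', S.mul_mem hg hg', s * s', sc s' * z + sc s * z' + sc (pi0 ^ k) * (z * z'),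
    by rw [map_mul, hs, hs', one_mul], ?_, ?_⟩
  · rw [e1, e2, sc_mul]
    have c1 : z * sc s' = sc s' * z := (sc_comm s' z).symm
    have c2 : sc s * sc (pi0 ^ k) = sc (pi0 ^ k) * sc s := sc_comm s _
    have c3 : z * sc (pi0 ^ k) = sc (pi0 ^ k) * z := (sc_comm _ z).symm
    calc (sc s + sc (pi0 ^ k) * z) * (sc s' + sc (pi0 ^ k) * z')
        = sc s * sc s' + sc (pi0 ^ k) * (z * sc s') + (sc s * sc (pi0 ^ k)) * z'
          + sc (pi0 ^ k) * (z * sc (pi0 ^ k)) * z' := by noncomm_ring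
      _ = sc s * sc s' + sc (pi0 ^ k) * (sc s' * z) + (sc (pi0 ^ k) * sc s) * z'
          + sc (pi0 ^ k) * (sc (pi0 ^ k) * z) * z' := by rw [c1, c2, c3]
      _ = _ := by noncomm_ring
  · rw [map_add, map_add, map_mul, map_mul, map_mul, red0_sc_one hs, red0_sc_one hs',
      red0_pi_pow hk, one_mul, one_mul, zero_mul, add_zero]

theorem Lv.sq {k : ℕ} {A : Om (ZMod 2) 0} (hk : 2 ≤ k) (h : Lv k A) : Lv (k + 1) A := by
  obtain ⟨g, hg, s, z, hs, e1, rfl⟩ := h
  obtain ⟨j, rfl⟩ := Nat.exists_eq_add_of_le hk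
  refine ⟨g * g, S.mul_mem hg hg, s * s, sc (pi1 * s) * z + sc (pi0 ^ (j + 1)) * (z * z),
    by rw [map_mul, hs, one_mul], ?_, ?_⟩
  · rw [e1]
    have c1 : z * sc s = sc s * z := (sc_comm s z).symm
    have c2 : sc s * sc (pi0 ^ (2 + j)) = sc (pi0 ^ (2 + j)) * sc s := sc_comm s _
    have c3 : z * sc (pi0 ^ (2 + j)) = sc (pi0 ^ (2 + j)) * z := (sc_comm _ z).symm
    have c4 : sc (pi0 ^ (2 + j)) * sc s + sc (pi0 ^ (2 + j)) * sc s
        = sc (pi0 ^ (2 + j + 1)) * sc (pi1 * s) := by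
      rw [← sc_mul, ← sc_mul, ← sc_add]
      congr 1
      have h2 : pi0 * pi1 = 2 := pi_mul
      linear_combination (-(pi0 ^ (2 + j) * s)) * h2
    have c5 : sc (pi0 ^ (2 + j)) * sc (pi0 ^ (2 + j)) =
        sc (pi0 ^ (2 + j + 1)) * sc (pi0 ^ (j + 1)) := by
      rw [← sc_mul, ← sc_mul]
      congr 1
      ring
    calc (sc s + sc (pi0 ^ (2 + j)) * z) * (sc s + sc (pi0 ^ (2 + j)) * z)
        = sc s * sc s + sc (pi0 ^ (2 + j)) * (z * sc s) + (sc s * sc (pi0 ^ (2 + j))) * z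
          + sc (pi0 ^ (2 + j)) * (z * sc (pi0 ^ (2 + j))) * z := by noncomm_ring
      _ = sc s * sc s + sc (pi0 ^ (2 + j)) * (sc s * z) + (sc (pi0 ^ (2 + j)) * sc s) * z
          + sc (pi0 ^ (2 + j)) * (sc (pi0 ^ (2 + j)) * z) * z := by rw [c1, c2, c3]
      _ = sc s * sc s + (sc (pi0 ^ (2 + j)) * sc s + sc (pi0 ^ (2 + j)) * sc s) * z
          + (sc (pi0 ^ (2 + j)) * sc (pi0 ^ (2 + j))) * (z * z) := by noncomm_ring
      _ = _ := by rw [c4, c5, sc_mul s s]; noncomm_ring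
  · have h1 : r0 pi1 = 1 := by decide
    rw [map_add, map_mul, map_mul, red0_sc_one (by rw [map_mul, hs, h1, one_mul]),
      red0_pi_pow (by omega), one_mul, zero_mul, add_zero]

theorem Lv.add_one {k : ℕ} {A : Om (ZMod 2) 0} (hk : 1 ≤ k) (h : Lv k A) : Lv k (A + 1) := by
  obtain ⟨g, hg, s, z, hs, e1, rfl⟩ := h
  refine ⟨g, hg, s - pi0 ^ k, z + 1, ?_, ?_, by rw [map_add, map_one]⟩
  · rw [map_sub, hs, r0_pi0_pow hk, sub_zero]
  · rw [e1, sc_sub]; noncomm_ring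

theorem lv_of_gprod (l : List St) (s : OK) (z : Ord) (hs : r0 s = 1)
    (h : gprod l = sc s + sc (pi0 ^ 3) * z) : Lv 3 (red0 z) :=
  ⟨gprod l, gprod_mem l, s, z, hs, h, rfl⟩

theorem lv3_b : Lv 3 ⟨0, 1, 0, 0⟩ := by
  have h := lv_of_gprod [St.a, St.b, St.c, St.a, St.b, St.c] ⟨-23, 9⟩
    ⟨0, ⟨-333, 130⟩, ⟨-1186, 463⟩, 0⟩ (by decide) (by decide)
  have e : red0 ⟨0, ⟨-333, 130⟩, ⟨-1186, 463⟩, 0⟩ = ⟨0, 1, 0, 0⟩ := by decide
  rwa [e] at h

set_option maxRecDepth 20000 in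
theorem lv3_d : Lv 3 ⟨0, 0, 0, 1⟩ := by
  have h := lv_of_gprod [St.b, St.c, St.b, St.c, St.b, St.c, St.b, St.c] ⟨169, -66⟩
    ⟨0, ⟨-4224, 1649⟩, 0, ⟨-2705, 1056⟩⟩ (by decide) (by decide)
  have e : red0 ⟨0, ⟨-4224, 1649⟩, 0, ⟨-2705, 1056⟩⟩ = ⟨0, 0, 0, 1⟩ := by decide
  rwa [e] at h

set_option maxRecDepth 20000 in
theorem lv3_bc : Lv 3 ⟨0, 1, 1, 0⟩ := by
  have h := lv_of_gprod [St.a, St.c, St.a, St.c, St.a, St.c, St.a, St.c] ⟨-187, 73⟩
    ⟨0, ⟨2705, -1056⟩, ⟨-2705, 1056⟩, 0⟩ (by decide) (by decide)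
  have e : red0 ⟨0, ⟨2705, -1056⟩, ⟨-2705, 1056⟩, 0⟩ = ⟨0, 1, 1, 0⟩ := by decide
  rwa [e] at h

theorem lv_all3 (A : Om (ZMod 2) 0) : Lv 3 A := by
  have h0 : Lv 3 0 := by
    have := lv3_b.add (by norm_num) lv3_b
    have e : (⟨0, 1, 0, 0⟩ + ⟨0, 1, 0, 0⟩ : Om (ZMod 2) 0) = 0 := by decide
    rwa [e] at this
  have h1 : Lv 3 1 := by
    have := h0.add_one (by norm_num)
    rwa [zero_add] at this
  have hc : Lv 3 ⟨0, 0, 1, 0⟩ := by
    have := lv3_b.add (by norm_num) lv3_bc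
    have e : (⟨0, 1, 0, 0⟩ + ⟨0, 1, 1, 0⟩ : Om (ZMod 2) 0) = ⟨0, 0, 1, 0⟩ := by decide
    rwa [e] at this
  have sel : ∀ (t : ZMod 2) (E : Om (ZMod 2) 0), Lv 3 E → Lv 3 (Om.C 0 t * E) := by
    intro t E hE
    have ht : t = 0 ∨ t = 1 := by revert t; decide
    rcases ht with rfl | rfl
    · have : Om.C 0 (0 : ZMod 2) * E = 0 := by
        have : Om.C 0 (0 : ZMod 2) = 0 := rfl
        rw [this, zero_mul]
      rw [this]; exact h0
    · have : Om.C 0 (1 : ZMod 2) * E = E := by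
        have : Om.C 0 (1 : ZMod 2) = 1 := rfl
        rw [this, one_mul]
      rw [this]; exact hE
  have e : A = ((Om.C 0 A.a * 1 + Om.C 0 A.b * ⟨0, 1, 0, 0⟩) + Om.C 0 A.c * ⟨0, 0, 1, 0⟩)
      + Om.C 0 A.d * ⟨0, 0, 0, 1⟩ := by
    apply Om.ext <;> simp
  rw [e]
  exact (((sel _ _ h1).add (by norm_num) (sel _ _ lv3_b)).add (by norm_num)
    (sel _ _ hc)).add (by norm_num) (sel _ _ lv3_d)

theorem lv_all (j : ℕ) (A : Om (ZMod 2) 0) : Lv (3 + j) A := by
  induction j with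
  | zero => exact lv_all3 A
  | succ j ih => exact Lv.sq (k := 3 + j) (by omega) ih

/-- strong approximation for elements `≡` an odd scalar modulo `π³` -/
theorem approx (s0 : OK) (hs0 : r0 s0 = 1) (z0 : Ord) (j : ℕ) :
    ∃ g : Ord, g ∈ S ∧ ∃ (c c' : OK) (y : Ord), r0 c = 1 ∧ r0 c' = 1 ∧
      sc c * g = sc c' * (sc s0 + sc (pi0 ^ 3) * z0) + sc (pi0 ^ (3 + j)) * y := by
  set h : Ord := sc s0 + sc (pi0 ^ 3) * z0 with hh
  have hred : red0 h = 1 := by
    rw [hh, map_add, map_mul, red0_sc_one hs0, red0_pi_pow (by norm_num), zero_mul, add_zero]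
  induction j with
  | zero =>
    refine ⟨1, S.one_mem, s0, 1, -z0, hs0, map_one _, ?_⟩
    rw [mul_one, sc_one, one_mul, hh, mul_neg, add_zero]
    abel
  | succ j ih =>
    obtain ⟨g, hg, c, c', y, hc, hc', e1⟩ := ih
    obtain ⟨g', hg', s', z', hs', e2, e3⟩ := lv_all j (-(red0 y))
    have e4 : red0 (sc c' * (h * z') + sc s' * y) = 0 := by
      rw [map_add, map_mul, map_mul, map_mul, red0_sc_one hc', red0_sc_one hs', hred, e3]
      simp
    obtain ⟨y', hy'⟩ := red0_dvd e4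
    refine ⟨g * g', S.mul_mem hg hg', c, c' * s', y' + sc (pi0 ^ (2 + j)) * (y * z'), hc,
      by rw [map_mul, hc', hs', one_mul], ?_⟩
    have c1 : (sc c' * h) * sc s' = sc (c' * s') * h := by
      rw [sc_mul, mul_assoc, ← sc_comm s' h, ← mul_assoc]
    have c2 : h * sc (pi0 ^ (3 + j)) = sc (pi0 ^ (3 + j)) * h := (sc_comm _ h).symm
    have c3 : y * sc s' = sc s' * y := (sc_comm _ y).symm
    have c4 : y * sc (pi0 ^ (3 + j)) = sc (pi0 ^ (3 + j)) * y := (sc_comm _ y).symm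
    have c5 : sc c' * sc (pi0 ^ (3 + j)) = sc (pi0 ^ (3 + j)) * sc c' := sc_comm _ _
    have c6 : sc (pi0 ^ (3 + (j + 1))) = sc (pi0 ^ (3 + j)) * sc pi0 := by
      rw [← sc_mul, ← pow_succ]; rfl
    have c7 : sc (pi0 ^ (3 + j)) * sc (pi0 ^ (3 + j)) =
        sc (pi0 ^ (3 + (j + 1))) * sc (pi0 ^ (2 + j)) := by
      rw [← sc_mul, ← sc_mul]
      congr 1
      ring
    calc sc c * (g * g') = (sc c * g) * g' := (mul_assoc _ _ _).symm
      _ = (sc c' * h + sc (pi0 ^ (3 + j)) * y) * (sc s' + sc (pi0 ^ (3 + j)) * z') := by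
          rw [e1, e2]
      _ = (sc c' * h) * sc s' + sc c' * (h * sc (pi0 ^ (3 + j))) * z'
          + sc (pi0 ^ (3 + j)) * (y * sc s')
          + sc (pi0 ^ (3 + j)) * (y * sc (pi0 ^ (3 + j))) * z' := by noncomm_ring
      _ = sc (c' * s') * h + sc c' * (sc (pi0 ^ (3 + j)) * h) * z'
          + sc (pi0 ^ (3 + j)) * (sc s' * y)
          + sc (pi0 ^ (3 + j)) * (sc (pi0 ^ (3 + j)) * y) * z' := by rw [c1, c2, c3, c4]
      _ = sc (c' * s') * h + (sc c' * sc (pi0 ^ (3 + j))) * (h * z')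
          + sc (pi0 ^ (3 + j)) * (sc s' * y)
          + (sc (pi0 ^ (3 + j)) * sc (pi0 ^ (3 + j))) * (y * z') := by noncomm_ring
      _ = sc (c' * s') * h + sc (pi0 ^ (3 + j)) * (sc c' * (h * z') + sc s' * y)
          + (sc (pi0 ^ (3 + j)) * sc (pi0 ^ (3 + j))) * (y * z') := by rw [c5]; noncomm_ring
      _ = sc (c' * s') * h + sc (pi0 ^ (3 + j)) * (sc pi0 * y')
          + (sc (pi0 ^ (3 + (j + 1))) * sc (pi0 ^ (2 + j))) * (y * z') := by rw [hy', c7]
      _ = _ := by rw [c6]; noncomm_ring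

/-- the action on words of length at most `m` depends only on the class modulo `π^(m+1)` -/
theorem act_of_congr {x : Ord} (hx : x ∈ S) {h y : Ord} {c c' : OK} (hc : r0 c = 1) {K : ℕ}
    (e : sc c * x = sc c' * h + sc (pi0 ^ K) * y) {u v : List Bool} (huv : v.length = u.length)
    (hK : u.length + 1 ≤ K) {t : Ord} (ht : h * Y u = Y v * t) :
    (th ⟨x, hx⟩ : Equiv.Perm _) u = v := by
  obtain ⟨hl, t', ht'⟩ := th_spec ⟨x, hx⟩ u
  set v' := (th ⟨x, hx⟩ : Equiv.Perm _) u with hv'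
  have hn : r0 (nrd (sc c * x)) = 1 := by
    rw [nrd_mul, map_mul, r0_nrd_of_mem hx]
    have : nrd (sc c) = c ^ 2 := nrd_C c
    rw [this, map_pow, hc]
    norm_num
  obtain ⟨i, rfl⟩ := Nat.exists_eq_add_of_le hK
  have hpi : sc (pi0 ^ (u.length + 1 + i)) = Y v * (conj (Y v) * sc (pi0 ^ i)) := by
    rw [← mul_assoc, mul_conj, nrd_Y, huv]
    show _ = Om.C om (pi0 ^ (u.length + 1)) * sc (pi0 ^ i)
    rw [pow_add, sc_mul]
    rfl
  have h1 : sc c * x * Y u = Y v' * (t' * sc c) := by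
    rw [mul_assoc]
    have : x * Y u = Y v' * t' := ht'
    rw [this, sc_comm, mul_assoc]
  have h2 : sc c * x * Y u = Y v * (t * sc c' + conj (Y v) * sc (pi0 ^ i) * y * Y u) := by
    rw [e, add_mul, mul_add]
    congr 1
    · rw [mul_assoc, ht, sc_comm, mul_assoc]
    · rw [hpi]; simp only [mul_assoc]
  exact uniq hn hl huv h1 h2

/-! ### flips -/

/-- `X u₁ ⋯ X uₙ` -/
def PX : List Bool → Ord
  | [] => 1
  | i :: u => X i * PX u

theorem PX_append (u v : List Bool) : PX (u ++ v) = PX u * PX v := by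
  induction u with
  | nil => simp [PX]
  | cons i u ih =>
    show X i * PX (u ++ v) = X i * PX u * PX v
    rw [ih, mul_assoc]

theorem Y_eq_PX (u : List Bool) : Y u = PX u * X false := by
  induction u with
  | nil => simp [PX, Y]
  | cons i u ih =>
    show X i * Y u = X i * PX u * X false
    rw [ih, mul_assoc]

theorem PX_conj (u : List Bool) : PX u * conj (PX u) = sc (pi0 ^ u.length) := by
  rw [mul_conj]
  have : nrd (PX u) = pi0 ^ u.length := by
    induction u with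
    | nil => simp [PX, nrd_one]
    | cons i u ih =>
      show nrd (X i * PX u) = _
      rw [nrd_mul, nrd_X, ih, List.length_cons, pow_succ']
  rw [this]
  rfl

theorem PX_replicate (j : ℕ) : PX (List.replicate j false) = ee ^ j := by
  induction j with
  | zero => rfl
  | succ j ih =>
    show X false * PX (List.replicate j false) = _
    rw [ih, pow_succ']

/-- conjugates of `X̄₁ e X₁` by the `X i` -/
theorem conj_E (v : List Bool) (hv : v ≠ []) :
    ∃ z : Ord, conj (PX v) * (conj (X true) * ee * X true) * PX v = sc pi0 * z ∧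
      red0 z = ⟨0, 0, 0, 1⟩ := by
  induction v using List.reverseRecOn with
  | nil => exact absurd rfl hv
  | append_singleton v i ih =>
    by_cases h0 : v = []
    · subst h0
      have e : conj (PX ([] ++ [i])) * (conj (X true) * ee * X true) * PX ([] ++ [i]) =
          conj (X i) * (conj (X true) * ee * X true) * X i := by
        show conj (X i * 1) * _ * (X i * 1) = _
        rw [mul_one]
      rw [e]
      cases i
      · exact ⟨⟨0, ⟨6, 4⟩, 0, ⟨-3, -2⟩⟩, by decide, by decide⟩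
      · exact ⟨⟨⟨6, 4⟩, ⟨-6, -4⟩, 0, ⟨3, 2⟩⟩, by decide, by decide⟩
    · obtain ⟨z, hz, hz0⟩ := ih h0
      refine ⟨conj (X i) * z * X i, ?_, ?_⟩
      · have e1 : PX (v ++ [i]) = PX v * X i := by
          rw [PX_append]
          show PX v * (X i * 1) = _
          rw [mul_one]
        rw [e1, Om.conj_mul]
        calc conj (X i) * conj (PX v) * (conj (X true) * ee * X true) * (PX v * X i)
            = conj (X i) * (conj (PX v) * (conj (X true) * ee * X true) * PX v) * X i := by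
              simp only [mul_assoc]
          _ = conj (X i) * (sc pi0 * z) * X i := by rw [hz]
          _ = (conj (X i) * sc pi0) * z * X i := by simp only [mul_assoc]
          _ = (sc pi0 * conj (X i)) * z * X i := by rw [← sc_comm]
          _ = _ := by simp only [mul_assoc]
      · rw [map_mul, map_mul, hz0, red0_X]
        have : red0 (conj (X i)) = ⟨1, 0, 1, 0⟩ := by cases i <;> decide
        rw [this]
        decide

theorem comm_pow' {a b : Ord} (h : a * b = b * a) (j : ℕ) : a * b ^ j = b ^ j * a := by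
  induction j with
  | zero => rw [pow_zero, mul_one, one_mul]
  | succ j ih => rw [pow_succ, ← mul_assoc, ih, mul_assoc, h, mul_assoc]

theorem comm_ee (t : OK) : (1 + sc t * ee) * ee = ee * (1 + sc t * ee) := by
  rw [add_mul, mul_add, one_mul, mul_one, mul_assoc, ← mul_assoc ee (sc t) ee, ← sc_comm t ee,
    mul_assoc]

/-- the element `1 + π n₀ + π² y` exchanges the two words with one letter -/
theorem last_flip (z : Ord) (hz : red0 z = ⟨0, 0, 0, 1⟩) (x : Bool) :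
    ∃ t : Ord, (1 + sc pi0 * z) * (X x * X false) = X (!x) * X false * t := by
  have h1 : red0 (z - ⟨0, 0, 0, 1⟩) = 0 := by
    rw [map_sub, hz]
    have : red0 (⟨0, 0, 0, 1⟩ : Ord) = ⟨0, 0, 0, 1⟩ := by decide
    rw [this, sub_self]
  obtain ⟨y, hy⟩ := red0_dvd h1
  have hz' : z = ⟨0, 0, 0, 1⟩ + sc pi0 * y := by rw [← hy]; abel
  have h2 : ∃ t : Ord, (1 + sc pi0 * ⟨0, 0, 0, 1⟩) * (X x * X false) = X (!x) * X false * t := by
    cases x
    · exact ⟨⟨⟨5, 3⟩, ⟨4, 3⟩, ⟨-4, -3⟩, ⟨2, 1⟩⟩, by decide⟩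
    · exact ⟨⟨⟨9, 6⟩, ⟨2, 1⟩, ⟨-6, -3⟩, ⟨3, 2⟩⟩, by decide⟩
  obtain ⟨t, ht⟩ := h2
  have h3 : sc pi0 * sc pi0 = X (!x) * X false * conj (X (!x) * X false) := by
    rw [mul_conj, nrd_mul, nrd_X, nrd_X, ← sc_mul]
    rfl
  refine ⟨t + conj (X (!x) * X false) * y * (X x * X false), ?_⟩
  calc (1 + sc pi0 * z) * (X x * X false)
      = (1 + sc pi0 * ⟨0, 0, 0, 1⟩) * (X x * X false)
        + (sc pi0 * sc pi0) * (y * (X x * X false)) := by rw [hz']; noncomm_ring
    _ = X (!x) * X false * t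
        + X (!x) * X false * conj (X (!x) * X false) * (y * (X x * X false)) := by rw [ht, h3]
    _ = _ := by noncomm_ring

end Pool.Agent.H3.Bell2
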