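import Pool.Agent.H3.Bell2.Flip

set_option autoImplicit false

/-!
# Elements exchanging two siblings
-/

namespace Pool.Agent.H3.Bell2

open Pool.Agent.H3.Bell
open Pool.Agent.H3.Bell.Om

theorem PX_single (i : Bool) : PX [i] = X i := mul_one _

theorem PX_cons (i : Bool) (u : List Bool) : PX (i :: u) = X i * PX u := rfl

theorem Y_flip (j : ℕ) (v : List Bool) (i : Bool) :
    Y (List.replicate j false ++ true :: (v ++ [i])) =
      ee ^ j * (X true * (PX v * (X i * X false))) := by
  rw [Y_eq_PX, PX_append, PX_replicate, PX_cons, PX_append, PX_single, mul_assoc (ee ^ j),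
    mul_assoc (X true), mul_assoc (PX v)]

theorem flip_X (v : List Bool) :
    (1 + sc (pi0 ^ (v.length + 1)) * ee) * X true =
      X true * (1 + sc (pi0 ^ v.length) * (conj (X true) * ee * X true)) := by
  have h1 : X true * conj (X true) = sc pi0 := by decide
  have h2 : sc (pi0 ^ (v.length + 1)) = sc (pi0 ^ v.length) * sc pi0 := by
    rw [← sc_mul, pow_succ]
  have h3 : X true * sc (pi0 ^ v.length) = sc (pi0 ^ v.length) * X true := (sc_comm _ _).symm
  generalize X true = x at h1 h3 ⊢
  generalize conj x = x' at h1 ⊢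
  generalize ee = e
  rw [h2]
  generalize sc (pi0 ^ v.length) = s at h3 ⊢
  rw [← h1]
  calc (1 + s * (x * x') * e) * x = x + (s * x) * (x' * e * x) := by noncomm_ring
    _ = x + (x * s) * (x' * e * x) := by rw [h3]
    _ = _ := by noncomm_ring

theorem flip_P (v : List Bool) (E' z : Ord) (hz : conj (PX v) * E' * PX v = sc pi0 * z) :
    (1 + sc (pi0 ^ v.length) * E') * PX v = PX v * (1 + sc pi0 * z) := by
  rw [← hz, ← PX_conj v]
  generalize PX v = p
  generalize conj p = p'
  noncomm_ring

/-- `1 + π^k e` exchanges the two siblings `0^j 1 v x`, `x = 0, 1`, where `k = |v| + 1` -/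
theorem flip_h (j : ℕ) (v : List Bool) (hv : v ≠ []) (x : Bool) :
    ∃ t : Ord, (1 + sc (pi0 ^ (v.length + 1)) * ee) *
      Y (List.replicate j false ++ true :: (v ++ [x])) =
      Y (List.replicate j false ++ true :: (v ++ [!x])) * t := by
  obtain ⟨z, hz, hz0⟩ := conj_E v hv
  obtain ⟨t, ht⟩ := last_flip z hz0 x
  refine ⟨t, ?_⟩
  rw [Y_flip, Y_flip, ← mul_assoc, comm_pow' (comm_ee _) j, mul_assoc (ee ^ j), ← mul_assoc _ (X true),
    flip_X, mul_assoc (X true), ← mul_assoc _ (PX v), flip_P v _ z hz, mul_assoc (PX v), ht,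
    mul_assoc (ee ^ j), mul_assoc (X true), mul_assoc (PX v)]

/-- some element of `S` fixes `0^m` and exchanges `0^j 1 v 0` and `0^j 1 v 1` -/
theorem flip_zero (j : ℕ) (v : List Bool) (hv : 2 ≤ v.length) (x : Bool) :
    ∃ g ∈ G, g (List.replicate (j + v.length + 2) false) =
      List.replicate (j + v.length + 2) false ∧
      g (List.replicate j false ++ true :: (v ++ [x])) =
        List.replicate j false ++ true :: (v ++ [!x]) := by
  obtain ⟨k, hk⟩ := Nat.exists_eq_add_of_le hv
  obtain ⟨g, hg, c, c', y, hc, _, e⟩ := approx 1 (map_one _) (sc (pi0 ^ k) * ee)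
    (j + v.length + 2)
  have hh : sc 1 + sc (pi0 ^ 3) * (sc (pi0 ^ k) * ee) = 1 + sc (pi0 ^ (v.length + 1)) * ee := by
    rw [sc_one, ← mul_assoc, ← sc_mul, ← pow_add, hk]
    congr 4
    omega
  rw [hh] at e
  have hv' : v ≠ [] := by
    rintro rfl
    simp at hv
  refine ⟨(th ⟨g, hg⟩ : Equiv.Perm _), (th ⟨g, hg⟩).2, ?_, ?_⟩
  · refine act_of_congr hg hc e rfl ?_ (t := 1 + sc (pi0 ^ (v.length + 1)) * ee) ?_
    · rw [List.length_replicate]; omega
    · rw [Y_replicate]
      exact comm_pow' (comm_ee _) _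
  · obtain ⟨t, ht⟩ := flip_h j v hv' x
    refine act_of_congr hg hc e ?_ ?_ ht
    · simp
    · simp only [List.length_append, List.length_replicate, List.length_cons, List.length_nil]
      omega

end Pool.Agent.H3.Bell2
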