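import Pool.Agent.H3.Bell2.FlipH

set_option autoImplicit false

/-!
# Elements fixing a word and exchanging two siblings, general position
-/

namespace Pool.Agent.H3.Bell2

open Pool.Agent.H3.Bell
open Pool.Agent.H3.Bell.Om

theorem prefix_G {g : Equiv.Perm (List Bool)} (hg : g ∈ G) (u r : List Bool) :
    ∃ r' : List Bool, g (u ++ r) = g u ++ r' := by
  induction r using List.reverseRecOn with
  | nil => exact ⟨[], by simp⟩
  | append_singleton r i ih =>
    obtain ⟨r', hr'⟩ := ih
    obtain ⟨σ, hσ⟩ := append_G hg (u ++ r)
    refine ⟨r' ++ [xor i σ], ?_⟩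
    rw [← List.append_assoc, hσ, hr', List.append_assoc]

theorem take_G {g : Equiv.Perm (List Bool)} (hg : g ∈ G) (u : List Bool) (k : ℕ) :
    (g u).take k = g (u.take k) := by
  obtain ⟨r', hr'⟩ := prefix_G hg (u.take k) (u.drop k)
  rw [List.take_append_drop] at hr'
  by_cases hk : k ≤ u.length
  · have h1 : (g (u.take k)).length = k := by
      rw [length_G hg, List.length_take, min_eq_left hk]
    rw [hr', List.take_append_of_le_length h1.ge, List.take_of_length_le h1.le]
  · have h2 : u.take k = u := List.take_of_length_le (by omega)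
    rw [h2, List.take_of_length_le]
    rw [length_G hg]
    omega

theorem exists_split (k : ℕ) : ∀ l : List Bool, k ≤ l.length → l.take k ≠ List.replicate k false →
    ∃ j v, j < k ∧ l = List.replicate j false ++ true :: v := by
  induction k with
  | zero => intro l _ h; exact absurd rfl h
  | succ k ih =>
    intro l hl h
    cases l with
    | nil => simp at hl
    | cons i l =>
      cases i
      · have h1 : l.take k ≠ List.replicate k false := by
          intro hc
          apply h
          rw [List.take_succ_cons, hc]
          rfl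
        obtain ⟨j, v, hj, hv⟩ := ih l (by simpa using hl) h1
        exact ⟨j + 1, v, by omega, by rw [hv]; rfl⟩
      · exact ⟨0, l, by omega, rfl⟩

theorem gflip (u p : List Bool) (y : Bool) (hl : u.length = p.length + 1)
    (hne : u.take (p.length - 2) ≠ p.take (p.length - 2)) :
    ∃ g ∈ G, g u = u ∧ g (p ++ [y]) = p ++ [!y] := by
  obtain ⟨h, hh, hu⟩ := transitive (p.length + 1) u (List.replicate (p.length + 1) false) hl
    (List.length_replicate)
  obtain ⟨σ, hσ⟩ := append_G hh p
  have hp1 : (h p).length = p.length := length_G hh p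
  have hk : p.length - 2 ≤ (h p).length := by omega
  have hne' : (h p).take (p.length - 2) ≠ List.replicate (p.length - 2) false := by
    rw [take_G hh]
    intro hc
    apply hne
    apply h.injective
    rw [hc, ← take_G hh, hu, List.take_replicate]
    congr 1
    omega
  obtain ⟨j, v, hj, hv⟩ := exists_split _ _ hk hne'
  have hlen : j + v.length + 1 = p.length := by
    have := congrArg List.length hv
    simp only [List.length_append, List.length_replicate, List.length_cons] at this
    omega
  obtain ⟨g', hg', h1, h2⟩ := flip_zero j v (by omega) (xor y σ)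
  have h3 : ∀ i : Bool, List.replicate j false ++ true :: (v ++ [i]) = h p ++ [i] := by
    intro i
    rw [hv]
    simp
  rw [h3, h3] at h2
  have h4 : j + v.length + 2 = p.length + 1 := by omega
  rw [h4] at h1
  refine ⟨h⁻¹ * g' * h, G.mul_mem (G.mul_mem (G.inv_mem hh) hg') hh, ?_, ?_⟩
  · rw [Equiv.Perm.mul_apply, Equiv.Perm.mul_apply, hu, h1, Equiv.Perm.inv_eq_iff_eq, hu]
  · rw [Equiv.Perm.mul_apply, Equiv.Perm.mul_apply, hσ, h2, Equiv.Perm.inv_eq_iff_eq, hσ]
    congr 2
    cases y <;> cases σ <;> rfl

end Pool.Agent.H3.Bell2
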