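import Pool.Agent.H3.Bell2.CB

set_option autoImplicit false

/-!
# The inequality for new eigenfunctions
-/

namespace Pool.Agent.H3.Bell2

open Pool.Agent.H3.Bell
open Pool.Agent.H3.Bell.Om

theorem rhoQ_cl (m K : ℕ) (hK : m + 1 ≤ K) (l : List St) (u : W m) :
    (rhoQ m K hK (cl K l) u).1 = pprod l u.1 := by
  unfold cl
  rw [rhoQ_mk, theta_gprod]

theorem rhoQ_G (m K : ℕ) (hK : m + 1 ≤ K) (g : Equiv.Perm (List Bool)) (hg : g ∈ G) :
    ∃ γ : Gam K, ∀ u : W m, (rhoQ m K hK γ u).1 = g u.1 := by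
  obtain ⟨x, hx⟩ := theta_surjective ⟨g, hg⟩
  refine ⟨(x : Gam K), fun u => ?_⟩
  rw [rhoQ_mk, hx]

theorem rhoQ_ex (m K : ℕ) (hK : m + 1 ≤ K) (γ : Gam K) :
    ∃ g ∈ G, ∀ u : W m, (rhoQ m K hK γ u).1 = g u.1 := by
  induction γ using Con.induction_on with
  | H x => exact ⟨_, (theta x).2, fun u => rhoQ_mk m K hK x u⟩

open Classical in
/-- number of reduced words with a given class -/
noncomputable def BB (K r : ℕ) (g : Gam K) : ℝ := ((red r).filter (fun l => cl K l = g)).card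

theorem BB_sum (K r : ℕ) (F : Gam K → ℝ) : ∑ g, BB K r g * F g = ∑ l ∈ red r, F (cl K l) := by
  classical
  rw [← Finset.sum_fiberwise (red r) (cl K) (fun l => F (cl K l))]
  refine Finset.sum_congr rfl fun g _ => ?_
  have h1 : ∑ l ∈ (red r).filter (fun l => cl K l = g), F (cl K l) =
      ∑ l ∈ (red r).filter (fun l => cl K l = g), F g :=
    Finset.sum_congr rfl fun l hl => by rw [(Finset.mem_filter.1 hl).2]
  rw [h1, Finset.sum_const, nsmul_eq_mul]
  rfl

theorem BB_sq (K r : ℕ) : ∑ g, BB K r g ^ 2 = CC K r := by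
  classical
  have h1 : ∑ g, BB K r g ^ 2 = ∑ g, BB K r g * BB K r g :=
    Finset.sum_congr rfl fun g _ => pow_two _
  rw [h1, BB_sum K r (BB K r)]
  unfold CC BB
  rw [Finset.card_filter, Finset.sum_product]
  push_cast
  refine Finset.sum_congr rfl fun l _ => ?_
  rw [Finset.card_filter]
  push_cast
  refine Finset.sum_congr rfl fun l' _ => ?_
  simp only [eq_comm]

/-- `f` changes sign under the change of the last letter -/
def IsNew (m : ℕ) (f : List Bool → ℝ) : Prop :=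
  ∀ (p : List Bool) (y : Bool), p.length + 1 = m → f (p ++ [!y]) = -f (p ++ [y])

theorem KK_zero (m K : ℕ) (hK : m + 1 ≤ K) (hm : 1 ≤ m) (f : List Bool → ℝ) (hf : IsNew m f)
    (v w : W m) (h : v.1.take (m - 3) ≠ w.1.take (m - 3)) :
    KK (rhoQ m K hK) (fun u : W m => f u.1) v w = 0 := by
  have hw : w.1 ≠ [] := by
    intro h0
    have := w.2
    rw [h0] at this
    simp at this
    omega
  set p := w.1.dropLast with hp
  set y := w.1.getLast hw with hy
  have hpy : p ++ [y] = w.1 := List.dropLast_append_getLast hw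
  have hpl : p.length + 1 = m := by
    have := congrArg List.length hpy
    rw [List.length_append, List.length_singleton, w.2] at this
    exact this
  have hm3 : p.length - 2 = m - 3 := by omega
  have htake : w.1.take (m - 3) = p.take (m - 3) := by
    rw [← hpy, List.take_append_of_le_length (by omega)]
  obtain ⟨g, hg, h1, h2⟩ := gflip v.1 p y (v.2.trans hpl.symm) (by
    rw [hm3, ← htake]; exact h)
  obtain ⟨γ, hγ⟩ := rhoQ_G m K hK g hg
  have hv : rhoQ m K hK γ v = v := Subtype.ext (by rw [hγ, h1])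
  set w' : W m := ⟨p ++ [!y], by simp [hpl]⟩ with hw'
  have hww : rhoQ m K hK γ w = w' := Subtype.ext (by rw [hγ, ← hpy, h2])
  have h3 := KK_shift (rhoQ m K hK) (fun u : W m => f u.1) v w γ
  rw [hv, hww] at h3
  have h4 : KK (rhoQ m K hK) (fun u : W m => f u.1) v w' =
      - KK (rhoQ m K hK) (fun u : W m => f u.1) v w := by
    unfold KK
    rw [← Finset.sum_neg_distrib]
    refine Finset.sum_congr rfl fun δ _ => ?_
    obtain ⟨g', hg', hδ⟩ := rhoQ_ex m K hK δ
    show f (rhoQ m K hK δ v).1 * f (rhoQ m K hK δ w').1 =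
      -(f (rhoQ m K hK δ v).1 * f (rhoQ m K hK δ w).1)
    rw [hδ, hδ, hδ]
    obtain ⟨σ, hσ⟩ := append_G hg' p
    have e1 : g' w.1 = g' p ++ [xor y σ] := by rw [← hpy, hσ]
    have e2 : g' w'.1 = g' p ++ [!(xor y σ)] := by
      rw [hw']
      show g' (p ++ [!y]) = _
      rw [hσ]
      cases y <;> cases σ <;> rfl
    rw [e1, e2, hf (g' p) (xor y σ) (by rw [length_G hg', hpl])]
    ring
  linarith

theorem new_bound (m K r : ℕ) (hK : m + 1 ≤ K) (hm : 3 ≤ m) (f : List Bool → ℝ) (t : ℝ)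
    (hf : ∀ v : List Bool, v.length = m → ∑ s, f (perm s v) = t * f v)
    (hnew : IsNew m f) (hne : ∃ u : List Bool, u.length = m ∧ f u ≠ 0) :
    pr t r ^ 2 * 2 ^ m ≤ 8 * (2 ^ K) ^ 3 * CC K r := by
  classical
  have h := sx (rhoQ m K hK) (fun u : W m => f u.1) (BB K r) (pr t r) (by
    intro x
    rw [BB_sum K r (fun g => f (rhoQ m K hK g x).1)]
    rw [← eig m f t hf x.1 x.2 r]
    exact Finset.sum_congr rfl fun l _ => by rw [rhoQ_cl]) (by
    intro v w
    obtain ⟨g, hg, h⟩ := transitive m v.1 w.1 v.2 w.2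
    obtain ⟨γ, hγ⟩ := rhoQ_G m K hK g hg
    exact ⟨γ, Subtype.ext (by rw [hγ, h])⟩) (by
    obtain ⟨u, hu, h⟩ := hne
    exact ⟨⟨u, hu⟩, h⟩) 8 (by
    intro v
    have h1 : (Finset.univ.filter fun w : W m =>
        KK (rhoQ m K hK) (fun u : W m => f u.1) v w ≠ 0) ⊆
        Finset.univ.filter fun w : W m => v.1.take (m - 3) = w.1.take (m - 3) := by
      intro w hw
      rw [Finset.mem_filter] at hw ⊢
      refine ⟨Finset.mem_univ _, ?_⟩
      by_contra hcon
      exact hw.2 (KK_zero m K hK (by omega) f hnew v w hcon)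
    refine (Finset.card_le_card h1).trans ?_
    have h2 : Fintype.card (W 3) = 8 := by
      rw [card_vector]; rfl
    rw [← h2, ← Finset.card_univ]
    refine Finset.card_le_card_of_injOn
      (fun w : W m => (⟨w.1.drop (m - 3), by rw [List.length_drop, w.2]; omega⟩ : W 3)) ?_ ?_
    · intro w _
      exact Finset.mem_coe.2 (Finset.mem_univ _)
    · intro w hw w' hw' e
      rw [Finset.mem_coe, Finset.mem_filter] at hw hw'
      have e1 : w.1.drop (m - 3) = w'.1.drop (m - 3) := congrArg Subtype.val e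
      have e2 : w.1.take (m - 3) = w'.1.take (m - 3) := hw.2.symm.trans hw'.2
      apply Subtype.ext
      rw [← List.take_append_drop (m - 3) w.1, e1, e2, List.take_append_drop])
  have hX : (Fintype.card (W m) : ℝ) = 2 ^ m := by
    rw [card_vector, Fintype.card_bool]
    push_cast
    rfl
  rw [hX, BB_sq] at h
  refine h.trans ?_
  have h5 : (Fintype.card (Gam K) : ℝ) ≤ (2 ^ K) ^ 3 := by exact_mod_cast card_gam K
  have h6 : (0 : ℝ) ≤ CC K r := Nat.cast_nonneg _
  push_cast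
  nlinarith [mul_le_mul_of_nonneg_right h5 h6]

/-- there are no new eigenfunctions with large eigenvalue at deep levels -/
theorem no_new : ∃ m₀ : ℕ, 3 ≤ m₀ ∧ ∀ m, m₀ ≤ m → ∀ (f : List Bool → ℝ) (t : ℝ), 297 / 100 ≤ |t| →
    (∀ v : List Bool, v.length = m → ∑ s, f (perm s v) = t * f v) → IsNew m f →
    ∀ u : List Bool, u.length = m → f u = 0 := by
  have hb : (1 : ℝ) < (969 / 500) ^ 22 / 2 ^ 21 := by norm_num
  obtain ⟨s0, hs0⟩ := pow_unbounded_of_one_lt (256 * 1528823810 : ℝ) hb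
  refine ⟨5 * s0 + 5, by omega, ?_⟩
  intro m hm f t ht hf hnew
  by_contra hcon
  push Not at hcon
  obtain ⟨s, hs1, hs2⟩ : ∃ s, m + 1 ≤ 5 * s ∧ 5 * s ≤ m + 5 := ⟨(m + 5) / 5, by omega, by omega⟩
  have hs3 : s0 ≤ s := by omega
  have h1 := new_bound m (5 * s) (11 * s) hs1 (by omega) f t hf hnew hcon
  have h2 : ((969 : ℝ) / 500) ^ (2 * (11 * s)) ≤ pr t (11 * s) ^ 2 :=
    pr_sq_ge (by norm_num) (by norm_num) (le_trans (by norm_num) ht) _
  have h3 := CC_bound s (by omega)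
  have h4 : (2 : ℝ) ^ (5 * s) ≤ 32 * 2 ^ m := by
    have e : (32 : ℝ) * 2 ^ m = 2 ^ (m + 5) := by rw [pow_add]; norm_num; ring
    rw [e]
    exact pow_le_pow_right₀ (by norm_num) hs2
  have h5 : ((969 : ℝ) / 500) ^ (2 * (11 * s)) * 2 ^ (5 * s) ≤
      32 * (8 * (2 ^ (5 * s)) ^ 3 * (1528823810 * 2 ^ (11 * s))) := by
    calc ((969 : ℝ) / 500) ^ (2 * (11 * s)) * 2 ^ (5 * s)
        ≤ pr t (11 * s) ^ 2 * (32 * 2 ^ m) :=
          mul_le_mul h2 h4 (by positivity) (sq_nonneg _)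
      _ = 32 * (pr t (11 * s) ^ 2 * 2 ^ m) := by ring
      _ ≤ 32 * (8 * (2 ^ (5 * s)) ^ 3 * CC (5 * s) (11 * s)) :=
          mul_le_mul_of_nonneg_left h1 (by norm_num)
      _ ≤ _ := by
          apply mul_le_mul_of_nonneg_left _ (by norm_num)
          exact mul_le_mul_of_nonneg_left h3 (by positivity)
  have h6 : ((969 / 500) ^ 22 / 2 ^ 21 : ℝ) ^ s ≤ 256 * 1528823810 := by
    rw [div_pow, div_le_iff₀ (by positivity)]
    have e1 : ((969 : ℝ) / 500) ^ (2 * (11 * s)) = ((969 / 500) ^ 22) ^ s := by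
      rw [← pow_mul]; congr 1; ring
    have e2 : 32 * (8 * ((2 : ℝ) ^ (5 * s)) ^ 3 * (1528823810 * 2 ^ (11 * s))) =
        256 * 1528823810 * (2 ^ 21) ^ s * 2 ^ (5 * s) := by
      have : ((2 : ℝ) ^ 21) ^ s * 2 ^ (5 * s) = (2 ^ (5 * s)) ^ 3 * 2 ^ (11 * s) := by
        rw [← pow_mul, ← pow_mul, ← pow_add, ← pow_add]; congr 1; ring
      rw [mul_assoc (256 * 1528823810 : ℝ), this]
      ring
    rw [e1, e2] at h5
    exact le_of_mul_le_mul_right h5 (by positivity)
  have h7 : ((969 / 500) ^ 22 / 2 ^ 21 : ℝ) ^ s0 ≤ ((969 / 500) ^ 22 / 2 ^ 21 : ℝ) ^ s :=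
    pow_le_pow_right₀ hb.le hs3
  linarith

end Pool.Agent.H3.Bell2
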