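import Pool.Agent.H3.Bell2.GFlip

set_option autoImplicit false

/-!
# Finite quotients of the group through which it acts on words of bounded length
-/

namespace Pool.Agent.H3.Bell2

open Pool.Agent.H3.Bell
open Pool.Agent.H3.Bell.Om

/-- congruence modulo `π^K` up to scalars prime to `π` -/
def Cong (K : ℕ) (x y : Ord) : Prop :=
  ∃ (p q : OK) (z : Ord), r0 p = 1 ∧ r0 q = 1 ∧ sc p * x = sc q * y + sc (pi0 ^ K) * z

theorem Cong.refl (K : ℕ) (x : Ord) : Cong K x x :=
  ⟨1, 1, 0, map_one _, map_one _, by rw [mul_zero, add_zero]⟩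

theorem Cong.symm {K : ℕ} {x y : Ord} (h : Cong K x y) : Cong K y x := by
  obtain ⟨p, q, z, hp, hq, e⟩ := h
  refine ⟨q, p, -z, hq, hp, ?_⟩
  rw [e, mul_neg]
  abel

theorem Cong.trans {K : ℕ} {x y w : Ord} (h : Cong K x y) (h' : Cong K y w) : Cong K x w := by
  obtain ⟨p, q, z, hp, hq, e⟩ := h
  obtain ⟨p', q', z', hp', hq', e'⟩ := h'
  refine ⟨p' * p, q * q', sc q * z' + sc p' * z, by rw [map_mul, hp, hp', one_mul],
    by rw [map_mul, hq, hq', one_mul], ?_⟩
  have c1 : sc p' * sc q = sc q * sc p' := sc_comm _ _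
  have c2 : sc q * sc (pi0 ^ K) = sc (pi0 ^ K) * sc q := sc_comm _ _
  have c3 : sc p' * sc (pi0 ^ K) = sc (pi0 ^ K) * sc p' := sc_comm _ _
  calc sc (p' * p) * x = sc p' * (sc p * x) := by rw [sc_mul, mul_assoc]
    _ = sc p' * (sc q * y + sc (pi0 ^ K) * z) := by rw [e]
    _ = (sc p' * sc q) * y + (sc p' * sc (pi0 ^ K)) * z := by noncomm_ring
    _ = sc q * (sc p' * y) + (sc (pi0 ^ K) * sc p') * z := by rw [c1, c3]; noncomm_ring
    _ = sc q * (sc q' * w + sc (pi0 ^ K) * z') + (sc (pi0 ^ K) * sc p') * z := by rw [e']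
    _ = (sc q * sc q') * w + (sc q * sc (pi0 ^ K)) * z' + (sc (pi0 ^ K) * sc p') * z := by
        noncomm_ring
    _ = (sc q * sc q') * w + (sc (pi0 ^ K) * sc q) * z' + (sc (pi0 ^ K) * sc p') * z := by
        rw [c2]
    _ = _ := by rw [sc_mul]; noncomm_ring

theorem Cong.mul {K : ℕ} {x y x' y' : Ord} (h : Cong K x y) (h' : Cong K x' y') :
    Cong K (x * x') (y * y') := by
  obtain ⟨p, q, z, hp, hq, e⟩ := h
  obtain ⟨p', q', z', hp', hq', e'⟩ := h'
  refine ⟨p * p', q * q', z * (sc p' * x') + sc q * y * z', by rw [map_mul, hp, hp', one_mul],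
    by rw [map_mul, hq, hq', one_mul], ?_⟩
  have c1 : x * sc p' = sc p' * x := (sc_comm p' x).symm
  have c2 : y * sc q' = sc q' * y := (sc_comm q' y).symm
  have c3 : sc q * y * sc (pi0 ^ K) = sc (pi0 ^ K) * (sc q * y) := (sc_comm _ _).symm
  calc sc (p * p') * (x * x') = sc p * (sc p' * x) * x' := by
        rw [sc_mul]; noncomm_ring
    _ = (sc p * x) * (sc p' * x') := by rw [← c1]; noncomm_ring
    _ = sc q * y * (sc p' * x') + sc (pi0 ^ K) * z * (sc p' * x') := by rw [e]; noncomm_ring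
    _ = sc q * y * (sc q' * y' + sc (pi0 ^ K) * z') + sc (pi0 ^ K) * z * (sc p' * x') := by
        rw [e']
    _ = sc q * (y * sc q') * y' + (sc q * y * sc (pi0 ^ K)) * z'
        + sc (pi0 ^ K) * (z * (sc p' * x')) := by rw [← e']; rw [e']; noncomm_ring
    _ = sc q * (sc q' * y) * y' + (sc (pi0 ^ K) * (sc q * y)) * z'
        + sc (pi0 ^ K) * (z * (sc p' * x')) := by rw [c2, c3]
    _ = _ := by rw [sc_mul]; noncomm_ring

/-- the congruence on `S` -/
def cgr (K : ℕ) : Con S where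
  r x y := Cong K (x : Ord) (y : Ord)
  iseqv := ⟨fun x => Cong.refl K _, fun h => Cong.symm h, fun h h' => Cong.trans h h'⟩
  mul' h h' := Cong.mul h h'

/-- the quotient -/
abbrev Gam (K : ℕ) : Type := (cgr K).Quotient

theorem cong_scalar (K : ℕ) {x : Ord} {c : OK} (hc : r0 c = 1) (h : x = sc c) : Cong K x 1 :=
  ⟨1, c, 0, map_one _, hc, by rw [h, sc_one, one_mul, mul_one, mul_zero, add_zero]⟩

theorem gam_isUnit (K : ℕ) (a : Gam K) : IsUnit a := by
  induction a using Con.induction_on with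
  | H x =>
    have h1 : ((x : Gam K)) * (((⟨conj (x : Ord), conj_mem x.2⟩ : S)) : Gam K) = 1 := by
      rw [← Con.coe_mul, ← Con.coe_one, Con.eq]
      exact cong_scalar K (r0_nrd_of_mem x.2) (Om.mul_conj _)
    have h2 : (((⟨conj (x : Ord), conj_mem x.2⟩ : S)) : Gam K) * ((x : Gam K)) = 1 := by
      rw [← Con.coe_mul, ← Con.coe_one, Con.eq]
      exact cong_scalar K (r0_nrd_of_mem x.2) (Om.conj_mul_self _)
    exact ⟨⟨_, _, h1, h2⟩, rfl⟩

noncomputable instance (K : ℕ) : Group (Gam K) := groupOfIsUnit (gam_isUnit K)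

/-! ### Finiteness -/

theorem exists_nat (K : ℕ) (z : OK) : ∃ n : ℕ, n < 2 ^ K ∧ ∃ w : OK, z = (n : OK) + pi0 ^ K * w := by
  induction K with
  | zero => exact ⟨0, by norm_num, z, by simp⟩
  | succ K ih =>
    obtain ⟨n, hn, w, hw⟩ := ih
    have hv : ∃ v : OK, pi1 ^ K = 1 + pi0 * v := by
      have : r0 (pi1 ^ K - 1) = 0 := by
        rw [map_sub, map_pow, map_one]
        have : r0 pi1 = 1 := by decide
        rw [this, one_pow, sub_self]
      obtain ⟨v, hv⟩ := r0_dvd this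
      exact ⟨v, by rw [← hv]; ring⟩
    obtain ⟨v, hv⟩ := hv
    have h2 : (2 : OK) ^ K = pi0 ^ K + pi0 ^ (K + 1) * v := by
      rw [← pi_mul, mul_pow, hv]
      ring
    rcases (show ∀ t : ZMod 2, t = 0 ∨ t = 1 by decide) (r0 w) with h0 | h0
    · obtain ⟨w', hw'⟩ := r0_dvd h0
      refine ⟨n, by rw [pow_succ]; omega, w', ?_⟩
      rw [hw, hw']
      ring
    · have : r0 (w - 1) = 0 := by rw [map_sub, h0, map_one, sub_self]
      obtain ⟨w', hw'⟩ := r0_dvd this
      refine ⟨n + 2 ^ K, by rw [pow_succ]; omega, w' - v, ?_⟩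
      have hw'' : w = 1 + pi0 * w' := by rw [← hw']; ring
      rw [hw, hw'']
      push_cast
      rw [h2]
      ring

theorem pow_inv (K : ℕ) {a : OK} (ha : r0 a = 1) : ∃ w : OK, a ^ 2 ^ K = 1 + pi0 ^ (K + 1) * w := by
  induction K with
  | zero =>
    have : r0 (a - 1) = 0 := by rw [map_sub, ha, map_one, sub_self]
    obtain ⟨w, hw⟩ := r0_dvd this
    exact ⟨w, by rw [pow_zero, pow_one, zero_add, pow_one, ← hw]; ring⟩
  | succ K ih =>
    obtain ⟨w, hw⟩ := ih
    refine ⟨pi1 * w + pi0 ^ K * w ^ 2, ?_⟩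
    rw [pow_succ, pow_mul, hw]
    have h2 : pi0 * pi1 = 2 := pi_mul
    linear_combination (-(pi0 ^ (K + 1) * w)) * h2

theorem exists_key (K : ℕ) (x : S) : ∃ (n : Fin 3 → Fin (2 ^ K)) (c : OK) (z : Ord), r0 c = 1 ∧
    sc c * (x : Ord) = ⟨1, ((n 0 : ℕ) : OK), ((n 1 : ℕ) : OK), ((n 2 : ℕ) : OK)⟩ +
      sc (pi0 ^ K) * z := by
  have ha : r0 (x : Ord).a = 1 := by
    have := congrArg Om.a (red0_of_mem x.2)
    exact this
  obtain ⟨w, hw⟩ := pow_inv K ha
  set c : OK := (x : Ord).a ^ (2 ^ K - 1) with hc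
  have hca : c * (x : Ord).a = 1 + pi0 ^ K * (pi0 * w) := by
    rw [hc, ← pow_succ, Nat.sub_add_cancel Nat.one_le_two_pow, hw]
    ring
  obtain ⟨n1, hn1, w1, hw1⟩ := exists_nat K (c * (x : Ord).b)
  obtain ⟨n2, hn2, w2, hw2⟩ := exists_nat K (c * (x : Ord).c)
  obtain ⟨n3, hn3, w3, hw3⟩ := exists_nat K (c * (x : Ord).d)
  refine ⟨![⟨n1, hn1⟩, ⟨n2, hn2⟩, ⟨n3, hn3⟩], c, ⟨pi0 * w, w1, w2, w3⟩, ?_, ?_⟩
  · rw [hc, map_pow, ha, one_pow]
  · have h1 : ∀ (s t u v r : OK), sc s * (⟨t, u, v, r⟩ : Ord) = ⟨s * t, s * u, s * v, s * r⟩ := by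
      intro s t u v r
      apply Om.ext <;> simp [sc]
    have h2 : (x : Ord) = ⟨(x : Ord).a, (x : Ord).b, (x : Ord).c, (x : Ord).d⟩ := rfl
    rw [h2, h1, h1]
    show (⟨c * (x : Ord).a, c * (x : Ord).b, c * (x : Ord).c, c * (x : Ord).d⟩ : Ord) = _
    rw [hca, hw1, hw2, hw3]
    rfl

/-- the key of an element -/
noncomputable def key (K : ℕ) (x : S) : Fin 3 → Fin (2 ^ K) := (exists_key K x).choose

theorem cong_of_key (K : ℕ) {x y : S} (h : key K x = key K y) : Cong K (x : Ord) (y : Ord) := by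
  obtain ⟨c, z, hc, e⟩ := (exists_key K x).choose_spec
  obtain ⟨c', z', hc', e'⟩ := (exists_key K y).choose_spec
  have h1 : (exists_key K x).choose = (exists_key K y).choose := h
  rw [h1] at e
  refine ⟨c, c', z - z', hc, hc', ?_⟩
  rw [e, e', mul_sub]
  abel

theorem gam_inj (K : ℕ) : Function.Injective
    (fun a : Gam K => key K (Quotient.out a)) := by
  intro a b h
  have h1 := cong_of_key K h
  have h2 : (cgr K) (Quotient.out a) (Quotient.out b) := h1
  have h3 := (Con.eq (cgr K)).2 h2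
  have ha : ((Quotient.out a : S) : Gam K) = a := Quotient.out_eq a
  have hb : ((Quotient.out b : S) : Gam K) = b := Quotient.out_eq b
  rw [ha, hb] at h3
  exact h3

noncomputable instance (K : ℕ) : Fintype (Gam K) :=
  Fintype.ofInjective _ (gam_inj K)

theorem card_gam (K : ℕ) : Fintype.card (Gam K) ≤ (2 ^ K) ^ 3 := by
  have := Fintype.card_le_of_injective _ (gam_inj K)
  rwa [Fintype.card_fun, Fintype.card_fin, Fintype.card_fin] at this

/-! ### The action on words of length `m` -/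

/-- words of length `m` -/
abbrev W (m : ℕ) : Type := List.Vector Bool m

/-- restriction of the action to words of length `m` -/
noncomputable def res (m : ℕ) : G →* Equiv.Perm (W m) where
  toFun g :=
    { toFun := fun u => ⟨(g : Equiv.Perm _) u.1, (length_G g.2 u.1).trans u.2⟩
      invFun := fun u => ⟨(g : Equiv.Perm _)⁻¹ u.1, (length_G (G.inv_mem g.2) u.1).trans u.2⟩
      left_inv := fun u => Subtype.ext (by simp)
      right_inv := fun u => Subtype.ext (by simp) }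
  map_one' := by
    ext1 u
    rfl
  map_mul' g h := by
    ext1 u
    rfl

theorem res_apply (m : ℕ) (g : G) (u : W m) : (res m g u).1 = (g : Equiv.Perm _) u.1 := rfl

theorem cgr_le (m K : ℕ) (hK : m + 1 ≤ K) : cgr K ≤ Con.ker ((res m).comp theta) := by
  intro x y h
  rw [Con.ker_rel]
  ext1 u
  apply Subtype.ext
  rw [MonoidHom.comp_apply, MonoidHom.comp_apply, res_apply, res_apply]
  obtain ⟨p, q, z, hp, hq, e⟩ := h
  obtain ⟨hl, t, ht⟩ := th_spec y u.1
  exact act_of_congr x.2 hp e hl (by rw [u.2]; exact hK) ht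

/-- the action of the quotient on words -/
noncomputable def rhoQ (m K : ℕ) (hK : m + 1 ≤ K) : Gam K →* Equiv.Perm (W m) :=
  (cgr K).lift ((res m).comp theta) (cgr_le m K hK)

theorem rhoQ_mk (m K : ℕ) (hK : m + 1 ≤ K) (x : S) (u : W m) :
    (rhoQ m K hK (x : Gam K) u).1 = (theta x : Equiv.Perm _) u.1 := by
  unfold rhoQ
  rw [Con.lift_coe]
  rfl

end Pool.Agent.H3.Bell2
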