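import Pool.Agent.H3.Bell2.SX
import Pool.Agent.H3.Bell2.Quo

set_option autoImplicit false

/-!
# Reduced words and the associated polynomials
-/

namespace Pool.Agent.H3.Bell2

open Pool.Agent.H3.Bell
open Pool.Agent.H3.Bell.Om

instance : Fintype St := ⟨{St.a, St.b, St.c}, by intro s; cases s <;> decide⟩

theorem sum_St {M : Type} [AddCommMonoid M] (F : St → M) :
    ∑ s, F s = F St.a + F St.b + F St.c := by
  have : (Finset.univ : Finset St) = {St.a, St.b, St.c} := rfl
  rw [this, Finset.sum_insert (by decide), Finset.sum_insert (by decide), Finset.sum_singleton,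
    add_assoc]

/-- reduced words of length `r` -/
def red : ℕ → Finset (List St)
  | 0 => {[]}
  | r + 1 => ((Finset.univ ×ˢ red r).filter (fun q => q.2.head? ≠ some q.1)).map
      ⟨fun q => q.1 :: q.2, by
        rintro ⟨s, l⟩ ⟨s', l'⟩ h
        simp only [List.cons.injEq] at h
        rw [h.1, h.2]⟩

theorem mem_red_zero {l : List St} : l ∈ red 0 ↔ l = [] := by simp [red]

theorem cons_mem_red {r : ℕ} {s : St} {l : List St} :
    s :: l ∈ red (r + 1) ↔ l ∈ red r ∧ l.head? ≠ some s := by
  simp [red]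

theorem mem_red_succ {r : ℕ} {W : List St} (h : W ∈ red (r + 1)) :
    ∃ s l, W = s :: l ∧ l ∈ red r ∧ l.head? ≠ some s := by
  simp only [red, Finset.mem_map, Finset.mem_filter, Finset.mem_product, Finset.mem_univ,
    true_and, Function.Embedding.coeFn_mk, Prod.exists] at h
  obtain ⟨s, l, ⟨h1, h2⟩, h3⟩ := h
  exact ⟨s, l, h3.symm, h1, h2⟩

theorem mem_red {r : ℕ} : ∀ {W : List St}, W ∈ red r ↔ W.length = r ∧ W.IsChain (· ≠ ·) := by
  induction r with
  | zero =>
    intro W
    rw [mem_red_zero]
    constructor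
    · rintro rfl
      exact ⟨rfl, List.isChain_nil⟩
    · rintro ⟨h, -⟩
      exact List.length_eq_zero_iff.1 h
  | succ r ih =>
    intro W
    constructor
    · intro h
      obtain ⟨s, l, rfl, h1, h2⟩ := mem_red_succ h
      obtain ⟨h3, h4⟩ := ih.1 h1
      refine ⟨by simp [h3], ?_⟩
      rw [List.isChain_cons_iff]
      cases l with
      | nil => exact Or.inl rfl
      | cons t l =>
        refine Or.inr ⟨t, l, ?_, h4, rfl⟩
        intro e
        apply h2
        rw [e]; rfl
    · rintro ⟨h1, h2⟩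
      cases W with
      | nil => simp at h1
      | cons s l =>
        rw [cons_mem_red, ih]
        refine ⟨⟨by simpa using h1, h2.tail⟩, ?_⟩
        cases l with
        | nil => simp
        | cons t l =>
          rw [List.isChain_cons_cons] at h2
          simp only [List.head?_cons, ne_eq, Option.some.injEq]
          exact fun e => h2.1 e.symm

theorem sum_red_succ {M : Type} [AddCommMonoid M] (r : ℕ) (F : List St → M) :
    ∑ W ∈ red (r + 1), F W =
      ∑ s, ∑ l ∈ red r, if l.head? = some s then 0 else F (s :: l) := by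
  rw [red, Finset.sum_map, Finset.sum_filter, Finset.sum_product]
  refine Finset.sum_congr rfl fun s _ => Finset.sum_congr rfl fun l _ => ?_
  simp only [Function.Embedding.coeFn_mk, ne_eq, ite_not]

theorem card_red_le (r : ℕ) : (red r).card ≤ 2 * 2 ^ r := by
  have key : ∀ r : ℕ, (red (r + 1)).card ≤ 3 * 2 ^ r := by
    intro r
    induction r with
    | zero => decide
    | succ r ih =>
      have h1 : (red (r + 1 + 1)).card = ∑ s, ∑ l ∈ red (r + 1), if l.head? = some s then 0 else 1 := by
        rw [Finset.card_eq_sum_ones, sum_red_succ]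
      rw [h1, Finset.sum_comm]
      calc ∑ l ∈ red (r + 1), ∑ s : St, (if l.head? = some s then 0 else 1)
          ≤ ∑ l ∈ red (r + 1), 2 := by
            refine Finset.sum_le_sum fun l hl => ?_
            obtain ⟨s, l, rfl, -, -⟩ := mem_red_succ hl
            rw [sum_St]
            simp only [List.head?_cons, Option.some.injEq]
            cases s <;> simp
        _ = (red (r + 1)).card * 2 := by rw [Finset.sum_const, smul_eq_mul]
        _ ≤ 3 * 2 ^ r * 2 := Nat.mul_le_mul_right 2 ih
        _ = 3 * 2 ^ (r + 1) := by ring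
  cases r with
  | zero => decide
  | succ r =>
    have := key r
    rw [pow_succ]
    omega

/-- the number of possible first letters in front of a word -/
theorem count_St (l : List St) (hl : l ≠ []) (x : ℝ) :
    ∑ s : St, (if l.head? = some s then 0 else x) = 2 * x := by
  cases l with
  | nil => exact absurd rfl hl
  | cons t l =>
    rw [sum_St]
    cases t <;> simp <;> ring

theorem sum_all (r : ℕ) (F : List St → ℝ) :
    ∑ s, ∑ l ∈ red r, F (s :: l) = ∑ W ∈ red (r + 1), F W +
      ∑ s, ∑ l ∈ red r, if l.head? = some s then F (s :: l) else 0 := by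
  rw [sum_red_succ, ← Finset.sum_add_distrib]
  refine Finset.sum_congr rfl fun s _ => ?_
  rw [← Finset.sum_add_distrib]
  refine Finset.sum_congr rfl fun l _ => ?_
  split_ifs <;> simp

theorem sum_back (r : ℕ) (F : List St → ℝ) :
    ∑ s, ∑ l ∈ red (r + 1), (if l.head? = some s then F (s :: l) else 0) =
      ∑ l ∈ red r, ∑ s, if l.head? = some s then 0 else F (s :: s :: l) := by
  rw [Finset.sum_comm (s := red r)]
  refine Finset.sum_congr rfl fun s _ => ?_
  rw [sum_red_succ, Finset.sum_eq_single s]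
  · refine Finset.sum_congr rfl fun l _ => ?_
    simp
  · intro t _ hts
    refine Finset.sum_eq_zero fun l _ => ?_
    simp [hts]
  · intro h
    exact absurd (Finset.mem_univ s) h

/-- the polynomials -/
noncomputable def pr (t : ℝ) : ℕ → ℝ
  | 0 => 1
  | 1 => t
  | 2 => t ^ 2 - 3
  | (r + 3) => t * pr t (r + 2) - 2 * pr t (r + 1)

theorem eig (n : ℕ) (f : List Bool → ℝ) (t : ℝ)
    (hf : ∀ v : List Bool, v.length = n → ∑ s, f (perm s v) = t * f v)
    (u : List Bool) (hu : u.length = n) (r : ℕ) :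
    ∑ l ∈ red r, f (pprod l u) = pr t r * f u := by
  have hlen : ∀ l : List St, (pprod l u).length = n := fun l =>
    (length_G (pprod_mem l) u).trans hu
  have hF : ∀ r : ℕ, ∑ s, ∑ l ∈ red r, f (pprod (s :: l) u) = t * ∑ l ∈ red r, f (pprod l u) := by
    intro r
    rw [Finset.sum_comm, Finset.mul_sum]
    refine Finset.sum_congr rfl fun l _ => ?_
    exact hf _ (hlen l)
  have hss : ∀ (s : St) (l : List St), f (pprod (s :: s :: l) u) = f (pprod l u) := by
    intro s l
    have : pprod (s :: s :: l) = pprod l := by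
      show perm s * (perm s * pprod l) = pprod l
      rw [← mul_assoc, perm_mul_self, one_mul]
    rw [this]
  have h0 : ∑ l ∈ red 0, f (pprod l u) = f u := by
    simp [red, pprod]
  have h1 : ∑ l ∈ red 1, f (pprod l u) = t * f u := by
    have := sum_all 0 (fun l => f (pprod l u))
    rw [hF 0, h0] at this
    rw [this]
    have hz : ∑ s : St, ∑ l ∈ red 0, (if l.head? = some s then f (pprod (s :: l) u) else 0) = 0 := by
      simp [red]
    rw [hz, add_zero]
  have h2 : ∑ l ∈ red 2, f (pprod l u) = (t ^ 2 - 3) * f u := by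
    have := sum_all 1 (fun l => f (pprod l u))
    have hb : ∑ s : St, ∑ l ∈ red 1, (if l.head? = some s then f (pprod (s :: l) u) else 0) =
      ∑ l ∈ red 0, ∑ s : St, (if l.head? = some s then 0 else f (pprod (s :: s :: l) u)) :=
      sum_back 0 (fun l => f (pprod l u))
    rw [hF 1, h1, hb] at this
    have hz : ∑ l ∈ red 0, ∑ s : St, (if l.head? = some s then 0 else f (pprod (s :: s :: l) u))
        = 3 * f u := by
      simp only [red, Finset.sum_singleton, List.head?_nil, hss]
      rw [sum_St]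
      simp [pprod]
      ring
    rw [hz] at this
    linarith
  have h3 : ∀ r : ℕ, ∑ l ∈ red (r + 3), f (pprod l u) =
      t * ∑ l ∈ red (r + 2), f (pprod l u) - 2 * ∑ l ∈ red (r + 1), f (pprod l u) := by
    intro r
    have := sum_all (r + 2) (fun l => f (pprod l u))
    have hb : ∑ s : St, ∑ l ∈ red (r + 2), (if l.head? = some s then f (pprod (s :: l) u) else 0) =
      ∑ l ∈ red (r + 1), ∑ s : St, (if l.head? = some s then 0 else f (pprod (s :: s :: l) u)) :=
      sum_back (r + 1) (fun l => f (pprod l u))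
    rw [hF (r + 2), hb] at this
    have hz : ∑ l ∈ red (r + 1), ∑ s : St, (if l.head? = some s then 0 else f (pprod (s :: s :: l) u))
        = 2 * ∑ l ∈ red (r + 1), f (pprod l u) := by
      rw [Finset.mul_sum]
      refine Finset.sum_congr rfl fun l hl => ?_
      simp only [hss]
      apply count_St
      obtain ⟨s, l', rfl, -, -⟩ := mem_red_succ hl
      simp
    rw [hz] at this
    linarith
  have key : ∀ r : ℕ, ∑ l ∈ red r, f (pprod l u) = pr t r * f u ∧
      ∑ l ∈ red (r + 1), f (pprod l u) = pr t (r + 1) * f u ∧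
      ∑ l ∈ red (r + 2), f (pprod l u) = pr t (r + 2) * f u := by
    intro r
    induction r with
    | zero =>
      refine ⟨?_, ?_, ?_⟩
      · rw [h0, pr, one_mul]
      · rw [h1, pr]
      · rw [h2, pr]
    | succ r ih =>
      refine ⟨ih.2.1, ih.2.2, ?_⟩
      show ∑ l ∈ red (r + 3), f (pprod l u) = pr t (r + 3) * f u
      rw [h3, ih.2.1, ih.2.2, pr]
      ring
  exact (key r).1

theorem pr_neg (t : ℝ) (r : ℕ) : pr (-t) r = (-1) ^ r * pr t r ∧
    pr (-t) (r + 1) = (-1) ^ (r + 1) * pr t (r + 1) ∧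
    pr (-t) (r + 2) = (-1) ^ (r + 2) * pr t (r + 2) := by
  induction r with
  | zero => simp [pr]
  | succ r ih =>
    refine ⟨ih.2.1, ih.2.2, ?_⟩
    show pr (-t) (r + 3) = (-1) ^ (r + 3) * pr t (r + 3)
    rw [pr, pr, ih.2.1, ih.2.2]
    ring

theorem pr_neg_sq (t : ℝ) (r : ℕ) : pr (-t) r ^ 2 = pr t r ^ 2 := by
  rw [(pr_neg t r).1, mul_pow, ← pow_mul, mul_comm r 2, pow_mul]
  norm_num

theorem pr_growth {t β : ℝ} (hβ : 0 < β) (hβ2 : β ≤ 2) (ht : β + 2 / β ≤ t) (r : ℕ) :
    0 < pr t r ∧ β * pr t r ≤ pr t (r + 1) ∧ β * pr t (r + 1) ≤ pr t (r + 2) := by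
  have h2 : 0 < 2 / β := by positivity
  have htb : β ≤ t := by linarith
  have htpos : 0 < t := by linarith
  induction r with
  | zero =>
    refine ⟨?_, ?_, ?_⟩
    · rw [pr]; norm_num
    · rw [pr, pr, mul_one]; exact htb
    · show β * pr t 1 ≤ pr t 2
      rw [pr, pr]
      have h3 : 3 ≤ t * (t - β) := by
        have h4 : 2 / β ≤ t - β := by linarith
        have h5 : (β + 2 / β) * (2 / β) ≤ t * (t - β) :=
          mul_le_mul ht h4 h2.le htpos.le
        have h6 : (β + 2 / β) * (2 / β) = 2 + 4 / β ^ 2 := by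
          field_simp
          ring
        have h7 : 1 ≤ 4 / β ^ 2 := by
          rw [le_div_iff₀ (by positivity)]
          nlinarith
        linarith
      nlinarith
  | succ r ih =>
    obtain ⟨i1, i2, i3⟩ := ih
    have j1 : 0 < pr t (r + 1) := lt_of_lt_of_le (by positivity) i2
    have j2 : 0 < pr t (r + 2) := lt_of_lt_of_le (by positivity) i3
    refine ⟨j1, i3, ?_⟩
    show β * pr t (r + 2) ≤ pr t (r + 3)
    rw [pr]
    have h4 : pr t (r + 1) ≤ pr t (r + 2) / β := by
      rw [le_div_iff₀ hβ, mul_comm]; exact i3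
    have h5 : (β + 2 / β) * pr t (r + 2) ≤ t * pr t (r + 2) :=
      mul_le_mul_of_nonneg_right ht j2.le
    have h6 : (β + 2 / β) * pr t (r + 2) = β * pr t (r + 2) + 2 * (pr t (r + 2) / β) := by
      field_simp
    linarith

theorem pr_ge {t β : ℝ} (hβ : 0 < β) (hβ2 : β ≤ 2) (ht : β + 2 / β ≤ t) (r : ℕ) :
    β ^ r ≤ pr t r := by
  induction r with
  | zero => rw [pr, pow_zero]
  | succ r ih =>
    calc β ^ (r + 1) = β * β ^ r := by rw [pow_succ']
      _ ≤ β * pr t r := mul_le_mul_of_nonneg_left ih hβ.le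
      _ ≤ _ := (pr_growth hβ hβ2 ht r).2.1

theorem pr_sq_ge {t β : ℝ} (hβ : 0 < β) (hβ2 : β ≤ 2) (ht : β + 2 / β ≤ |t|) (r : ℕ) :
    β ^ (2 * r) ≤ pr t r ^ 2 := by
  have h1 : β ^ r ≤ pr |t| r := pr_ge hβ hβ2 ht r
  have h2 : pr |t| r ^ 2 = pr t r ^ 2 := by
    rcases abs_choice t with h | h
    · rw [h]
    · rw [h, pr_neg_sq]
  rw [← h2, mul_comm 2 r, pow_mul]
  exact pow_le_pow_left₀ (by positivity) h1 2

end Pool.Agent.H3.Bell2
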