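import Mathlib

set_option autoImplicit false
set_option linter.unusedSectionVars false

/-!
# An inequality for eigenfunctions of averaging operators on transitive actions
-/

namespace Pool.Agent.H3.Bell2

open Finset

variable {Γ : Type} [Group Γ] [Fintype Γ] {X : Type} [Fintype X] [DecidableEq X]

/-- correlation of the values of `f` along the orbits of two points -/
noncomputable def KK (ρ : Γ →* Equiv.Perm X) (f : X → ℝ) (v w : X) : ℝ :=
  ∑ g : Γ, f (ρ g v) * f (ρ g w)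

theorem KK_shift (ρ : Γ →* Equiv.Perm X) (f : X → ℝ) (v w : X) (h : Γ) :
    KK ρ f (ρ h v) (ρ h w) = KK ρ f v w := by
  unfold KK
  rw [← Equiv.sum_comp (Equiv.mulRight h) (fun g => f (ρ g v) * f (ρ g w))]
  refine Finset.sum_congr rfl fun g _ => ?_
  simp [map_mul]

theorem KK_self_pos (ρ : Γ →* Equiv.Perm X) (f : X → ℝ) (v : X)
    (htr : ∀ w, ∃ g, ρ g v = w) (hf : ∃ w, f w ≠ 0) : 0 < KK ρ f v v := by
  obtain ⟨w, hw⟩ := hf
  obtain ⟨g, hg⟩ := htr w
  unfold KK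
  refine Finset.sum_pos' (fun g _ => mul_self_nonneg _) ⟨g, Finset.mem_univ g, ?_⟩
  rw [hg]
  exact mul_self_pos.2 hw

theorem KK_sq_le (ρ : Γ →* Equiv.Perm X) (f : X → ℝ) (v w : X) :
    KK ρ f v w ^ 2 ≤ KK ρ f v v * KK ρ f w w := by
  unfold KK
  have h := Finset.sum_mul_sq_le_sq_mul_sq (Finset.univ : Finset Γ) (fun g => f (ρ g v))
    (fun g => f (ρ g w))
  simpa [pow_two] using h

/-- The inequality. -/
theorem sx (ρ : Γ →* Equiv.Perm X) (f : X → ℝ) (B : Γ → ℝ) (p : ℝ)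
    (hB : ∀ x, ∑ g : Γ, B g * f (ρ g x) = p * f x) (htr : ∀ v w, ∃ g, ρ g v = w)
    (hf : ∃ w, f w ≠ 0) (s : ℕ)
    (hs : ∀ v, (univ.filter fun w => KK ρ f v w ≠ 0).card ≤ s) :
    p ^ 2 * Fintype.card X ≤ s * Fintype.card Γ * ∑ g : Γ, B g ^ 2 := by
  classical
  obtain ⟨v₀, hv₀⟩ := hf
  set κ : ℝ := KK ρ f v₀ v₀ with hκ
  have hκpos : 0 < κ := KK_self_pos ρ f v₀ (htr v₀) ⟨v₀, hv₀⟩
  have hdiag : ∀ v, KK ρ f v v = κ := by
    intro v
    obtain ⟨g, hg⟩ := htr v₀ v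
    rw [← hg, KK_shift]
  have hle : ∀ v w, KK ρ f v w ^ 2 ≤ κ ^ 2 := by
    intro v w
    have := KK_sq_le ρ f v w
    rw [hdiag, hdiag] at this
    rw [pow_two κ]; exact this
  -- the two matrices
  let C : Γ → Γ → ℝ := fun g h => ∑ v : X, f (ρ g v) * f (ρ h v)
  have e1 : ∑ h : Γ, ∑ g : Γ, B (g * h⁻¹) * C g h = p * Fintype.card X * κ := by
    have e2 : ∀ h : Γ, ∑ g : Γ, B (g * h⁻¹) * C g h = ∑ v : X, p * (f (ρ h v) * f (ρ h v)) := by
      intro h
      show ∑ g : Γ, B (g * h⁻¹) * ∑ v : X, f (ρ g v) * f (ρ h v) = _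
      simp only [Finset.mul_sum]
      rw [Finset.sum_comm]
      refine Finset.sum_congr rfl fun v _ => ?_
      have e3 := hB (ρ h v)
      calc ∑ g : Γ, B (g * h⁻¹) * (f (ρ g v) * f (ρ h v))
          = (∑ g : Γ, B (g * h⁻¹) * f (ρ g v)) * f (ρ h v) := by
            rw [Finset.sum_mul]
            exact Finset.sum_congr rfl fun g _ => by ring
        _ = (∑ g : Γ, B g * f (ρ g (ρ h v))) * f (ρ h v) := by
            congr 1
            rw [← Equiv.sum_comp (Equiv.mulRight h) (fun g => B (g * h⁻¹) * f (ρ g v))]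
            refine Finset.sum_congr rfl fun g _ => ?_
            simp [map_mul]
        _ = p * (f (ρ h v) * f (ρ h v)) := by rw [e3]; ring
    calc ∑ h : Γ, ∑ g : Γ, B (g * h⁻¹) * C g h
        = ∑ h : Γ, ∑ v : X, p * (f (ρ h v) * f (ρ h v)) := Finset.sum_congr rfl fun h _ => e2 h
      _ = ∑ v : X, ∑ h : Γ, p * (f (ρ h v) * f (ρ h v)) := Finset.sum_comm
      _ = ∑ v : X, p * κ := by
          refine Finset.sum_congr rfl fun v _ => ?_
          rw [← Finset.mul_sum, ← hdiag v]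
          rfl
      _ = p * Fintype.card X * κ := by
          rw [Finset.sum_const, Finset.card_univ, nsmul_eq_mul]; ring
  have e4 : ∑ h : Γ, ∑ g : Γ, B (g * h⁻¹) ^ 2 = Fintype.card Γ * ∑ g : Γ, B g ^ 2 := by
    have : ∀ h : Γ, ∑ g : Γ, B (g * h⁻¹) ^ 2 = ∑ g : Γ, B g ^ 2 := by
      intro h
      exact Equiv.sum_comp (Equiv.mulRight h⁻¹) (fun g => B g ^ 2)
    simp only [this]
    rw [Finset.sum_const, Finset.card_univ, nsmul_eq_mul]
  have e5 : ∑ h : Γ, ∑ g : Γ, C g h ^ 2 = ∑ v : X, ∑ w : X, KK ρ f v w ^ 2 := by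
    have e6 : ∀ g h : Γ, C g h ^ 2 =
        ∑ v : X, ∑ w : X, (f (ρ g v) * f (ρ g w)) * (f (ρ h v) * f (ρ h w)) := by
      intro g h
      show (∑ v : X, f (ρ g v) * f (ρ h v)) ^ 2 = _
      rw [pow_two, Finset.sum_mul_sum]
      refine Finset.sum_congr rfl fun v _ => Finset.sum_congr rfl fun w _ => ?_
      ring
    have e7 : ∀ v w : X, KK ρ f v w ^ 2 =
        ∑ h : Γ, ∑ g : Γ, (f (ρ g v) * f (ρ g w)) * (f (ρ h v) * f (ρ h w)) := by
      intro v w
      unfold KK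
      rw [pow_two, Finset.sum_mul_sum, Finset.sum_comm]
    simp only [e6, e7]
    calc ∑ h : Γ, ∑ g : Γ, ∑ v : X, ∑ w : X,
          (f (ρ g v) * f (ρ g w)) * (f (ρ h v) * f (ρ h w))
        = ∑ h : Γ, ∑ v : X, ∑ g : Γ, ∑ w : X,
          (f (ρ g v) * f (ρ g w)) * (f (ρ h v) * f (ρ h w)) :=
          Finset.sum_congr rfl fun h _ => Finset.sum_comm
      _ = ∑ v : X, ∑ h : Γ, ∑ g : Γ, ∑ w : X,
          (f (ρ g v) * f (ρ g w)) * (f (ρ h v) * f (ρ h w)) := Finset.sum_comm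
      _ = ∑ v : X, ∑ h : Γ, ∑ w : X, ∑ g : Γ,
          (f (ρ g v) * f (ρ g w)) * (f (ρ h v) * f (ρ h w)) :=
          Finset.sum_congr rfl fun v _ => Finset.sum_congr rfl fun h _ => Finset.sum_comm
      _ = _ := Finset.sum_congr rfl fun v _ => Finset.sum_comm
  have e8 : ∑ v : X, ∑ w : X, KK ρ f v w ^ 2 ≤ Fintype.card X * (s * κ ^ 2) := by
    have : ∀ v : X, ∑ w : X, KK ρ f v w ^ 2 ≤ s * κ ^ 2 := by
      intro v
      rw [← Finset.sum_filter_add_sum_filter_not univ (fun w => KK ρ f v w ≠ 0)]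
      have z1 : ∑ w ∈ univ.filter (fun w => ¬ KK ρ f v w ≠ 0), KK ρ f v w ^ 2 = 0 := by
        refine Finset.sum_eq_zero fun w hw => ?_
        rw [Finset.mem_filter, not_not] at hw
        rw [hw.2]; ring
      have z2 : ∑ w ∈ univ.filter (fun w => KK ρ f v w ≠ 0), KK ρ f v w ^ 2 ≤
          ∑ w ∈ univ.filter (fun w => KK ρ f v w ≠ 0), κ ^ 2 :=
        Finset.sum_le_sum fun w _ => hle v w
      rw [Finset.sum_const, nsmul_eq_mul] at z2
      have z3 : ((univ.filter fun w => KK ρ f v w ≠ 0).card : ℝ) * κ ^ 2 ≤ s * κ ^ 2 :=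
        mul_le_mul_of_nonneg_right (by exact_mod_cast hs v) (by positivity)
      rw [z1, add_zero]
      exact z2.trans z3
    calc ∑ v : X, ∑ w : X, KK ρ f v w ^ 2 ≤ ∑ v : X, (s : ℝ) * κ ^ 2 :=
          Finset.sum_le_sum fun v _ => this v
      _ = _ := by rw [Finset.sum_const, Finset.card_univ, nsmul_eq_mul]
  -- Cauchy-Schwarz
  have cs := Finset.sum_mul_sq_le_sq_mul_sq (Finset.univ : Finset (Γ × Γ))
    (fun x => B (x.2 * x.1⁻¹)) (fun x => C x.2 x.1)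
  rw [Fintype.sum_prod_type, Fintype.sum_prod_type, Fintype.sum_prod_type] at cs
  simp only at cs
  rw [e1, e4, e5] at cs
  have hXpos : (0 : ℝ) < Fintype.card X := by
    have : 0 < Fintype.card X := Fintype.card_pos_iff.2 ⟨v₀⟩
    exact_mod_cast this
  have hBnn : 0 ≤ (Fintype.card Γ : ℝ) * ∑ g : Γ, B g ^ 2 :=
    mul_nonneg (by positivity) (Finset.sum_nonneg fun g _ => sq_nonneg _)
  have cs2 : (p * Fintype.card X * κ) ^ 2 ≤
      (Fintype.card Γ * ∑ g : Γ, B g ^ 2) * (Fintype.card X * (s * κ ^ 2)) :=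
    cs.trans (mul_le_mul_of_nonneg_left e8 hBnn)
  have hpos : 0 < (Fintype.card X : ℝ) * κ ^ 2 := by positivity
  have cs3 : (p ^ 2 * Fintype.card X) * ((Fintype.card X : ℝ) * κ ^ 2) ≤
      (s * Fintype.card Γ * ∑ g : Γ, B g ^ 2) * ((Fintype.card X : ℝ) * κ ^ 2) := by
    nlinarith [cs2]
  exact le_of_mul_le_mul_right cs3 hpos

end Pool.Agent.H3.Bell2
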