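import Pool.Agent.H3.Bell2.Cnt

set_option autoImplicit false

/-!
# The number of reduced words which are trivial in the finite quotient
-/

namespace Pool.Agent.H3.Bell2

open Pool.Agent.H3.Bell
open Pool.Agent.H3.Bell.Om

theorem dvd_pi0_iff {z : OK} : pi0 ∣ z ↔ r0 z = 0 := by
  constructor
  · rintro ⟨y, rfl⟩
    rw [map_mul]
    have : r0 pi0 = 0 := by decide
    rw [this, zero_mul]
  · intro h
    obtain ⟨y, hy⟩ := r0_dvd h
    exact ⟨y, hy⟩

theorem prime_pi0 : Prime pi0 := by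
  refine ⟨pi0_ne, ?_, ?_⟩
  · intro h
    obtain ⟨u, hu⟩ := h
    have h1 := r0_unit u
    rw [hu] at h1
    exact absurd h1 (by decide)
  · intro a b h
    rw [dvd_pi0_iff, map_mul] at h
    rw [dvd_pi0_iff, dvd_pi0_iff]
    exact mul_eq_zero.1 h

theorem pow_dvd_of_coprime {p b : OK} {k : ℕ} (hp : r0 p ≠ 0) (h : pi0 ^ k ∣ p * b) :
    pi0 ^ k ∣ b := by
  refine prime_pi0.pow_dvd_of_dvd_mul_left k ?_ h
  rw [dvd_pi0_iff]
  exact hp

/-- multiply the last three coordinates by `π^K` -/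
def up (K : ℕ) (z : Ord) : Ord := ⟨z.a, pi0 ^ K * z.b, pi0 ^ K * z.c, pi0 ^ K * z.d⟩

theorem exists_up {K : ℕ} {W : List St} (h : cl K W = 1) : ∃ z : Ord, gprod W = up K z := by
  have h1 : ((⟨gprod W, gprod_mem W⟩ : S) : Gam K) = ((1 : S) : Gam K) := h
  rw [Con.eq] at h1
  obtain ⟨p, q, y, hp, hq, e⟩ := h1
  have hp' : r0 p ≠ 0 := by rw [hp]; decide
  have e' : sc p * gprod W = sc q + sc (pi0 ^ K) * y := by
    have : ((1 : S) : Ord) = 1 := rfl
    rw [this, mul_one] at e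
    exact e
  have hb := congrArg Om.b e'
  have hc := congrArg Om.c e'
  have hd := congrArg Om.d e'
  simp [sc] at hb hc hd
  obtain ⟨b, hb'⟩ := pow_dvd_of_coprime hp' ⟨y.b, hb⟩
  obtain ⟨c, hc'⟩ := pow_dvd_of_coprime hp' ⟨y.c, hc⟩
  obtain ⟨d, hd'⟩ := pow_dvd_of_coprime hp' ⟨y.d, hd⟩
  exact ⟨⟨(gprod W).a, b, c, d⟩, Om.ext rfl hb' hc' hd'⟩

/-- twice the real part, up to the scaling -/
def tau (K : ℕ) (z : Ord) : OK := 2 * z.a + pi0 ^ K * z.b + (om + 1) * (pi0 ^ K * z.c)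

/-- first coordinate on the circle -/
def cX (z : Ord) : OK := 3 * z.b + (om + 1) * (z.c + 2 * z.d)

/-- second coordinate on the circle -/
def cY (z : Ord) : OK := 2 * z.c + z.d

theorem main_id {K i : ℕ} {z : Ord} (h : nrd (up K z) = pi1 ^ (2 * i)) :
    12 * pi1 ^ (2 * i) = 3 * tau K z ^ 2 +
      pi0 ^ (2 * K) * (cX z ^ 2 + cY z ^ 2 + 3 * z.d ^ 2) := by
  rw [← h, nrd_identity]
  simp only [up, tau, cX, cY]
  rw [mul_comm 2 K, pow_mul]
  ring

theorem two_ne : (2 : OK) ≠ 0 := by decide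
theorem three_ne : (3 : OK) ≠ 0 := by decide

theorem eq_of_coords {K : ℕ} {z w : Ord} (h1 : tau K z = tau K w) (h2 : z.d = w.d)
    (h3 : cX z = cX w) (h4 : cY z = cY w) : z = w := by
  have hc : z.c = w.c := by
    apply mul_left_cancel₀ two_ne
    unfold cY at h4
    rw [h2] at h4
    linear_combination h4
  have hb : z.b = w.b := by
    apply mul_left_cancel₀ three_ne
    unfold cX at h3
    rw [h2, hc] at h3
    linear_combination h3
  have ha : z.a = w.a := by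
    apply mul_left_cancel₀ two_ne
    unfold tau at h1
    rw [hb, hc] at h1
    linear_combination h1
  exact Om.ext ha hb hc h2

/-! ### The divisibility of `τ ∓ 2π'^i` -/

theorem split_dvd {m : ℕ} {u v w : OK} (hw : r0 w ≠ 0) (hs : u + v = pi0 ^ 2 * w)
    (h : pi0 ^ (m + 4) ∣ u * v) : pi0 ^ (m + 2) ∣ u ∨ pi0 ^ (m + 2) ∣ v := by
  have hp := prime_pi0
  by_cases hu : pi0 ∣ u
  · obtain ⟨u1, rfl⟩ := hu
    have hv : pi0 ∣ v := by
      have : v = pi0 * (pi0 * w - u1) := by linear_combination hs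
      exact ⟨_, this⟩
    obtain ⟨v1, rfl⟩ := hv
    have hs1 : u1 + v1 = pi0 * w := by
      apply mul_left_cancel₀ pi0_ne
      linear_combination hs
    have h1 : pi0 ^ (m + 2) ∣ u1 * v1 := by
      obtain ⟨t, ht⟩ := h
      refine ⟨t, mul_left_cancel₀ (pow_ne_zero 2 pi0_ne) ?_⟩
      linear_combination ht
    by_cases hu1 : pi0 ∣ u1
    · obtain ⟨u2, rfl⟩ := hu1
      have hv1 : pi0 ∣ v1 := by
        have : v1 = pi0 * (w - u2) := by linear_combination hs1
        exact ⟨_, this⟩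
      obtain ⟨v2, rfl⟩ := hv1
      have hs2 : u2 + v2 = w := by
        apply mul_left_cancel₀ pi0_ne
        linear_combination hs1
      have h2 : pi0 ^ m ∣ u2 * v2 := by
        obtain ⟨t, ht⟩ := h1
        refine ⟨t, mul_left_cancel₀ (pow_ne_zero 2 pi0_ne) ?_⟩
        linear_combination ht
      by_cases hu2 : r0 u2 = 0
      · have hv2 : r0 v2 ≠ 0 := by
          intro h3
          apply hw
          rw [← hs2, map_add, hu2, h3, add_zero]
        left
        have h4 : pi0 ^ m ∣ u2 := pow_dvd_of_coprime hv2 (by rwa [mul_comm] at h2)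
        obtain ⟨t, ht⟩ := h4
        exact ⟨t, by rw [ht]; ring⟩
      · right
        obtain ⟨t, ht⟩ := pow_dvd_of_coprime hu2 h2
        exact ⟨t, by rw [ht]; ring⟩
    · right
      rw [dvd_pi0_iff] at hu1
      obtain ⟨t, ht⟩ := pow_dvd_of_coprime hu1 h1
      exact ⟨pi0 * t, by rw [ht]; ring⟩
  · right
    rw [dvd_pi0_iff] at hu
    obtain ⟨t, ht⟩ := pow_dvd_of_coprime hu h
    exact ⟨pi0 ^ 2 * t, by rw [ht]; ring⟩

theorem tau_cases {m K i : ℕ} (hK : 2 * K = m + 4) {z : Ord}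
    (h : nrd (up K z) = pi1 ^ (2 * i)) :
    (∃ k, tau K z = 2 * pi1 ^ i + pi0 ^ (m + 2) * k) ∨
      ∃ k, tau K z = -(2 * pi1 ^ i) + pi0 ^ (m + 2) * k := by
  have h1 := main_id h
  have h3 : r0 3 ≠ 0 := by decide
  have hw : r0 (pi1 ^ (i + 2)) ≠ 0 := by
    rw [map_pow]
    have : r0 pi1 = 1 := by decide
    rw [this, one_pow]
    decide
  have hs : (2 * pi1 ^ i - tau K z) + (2 * pi1 ^ i + tau K z) = pi0 ^ 2 * pi1 ^ (i + 2) := by
    have : pi0 * pi1 = 2 := pi_mul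
    have h4 : pi0 ^ 2 * pi1 ^ (i + 2) = (pi0 * pi1) ^ 2 * pi1 ^ i := by ring
    rw [h4, this]
    ring
  have hd : pi0 ^ (m + 4) ∣ (2 * pi1 ^ i - tau K z) * (2 * pi1 ^ i + tau K z) := by
    apply pow_dvd_of_coprime h3
    refine ⟨cX z ^ 2 + cY z ^ 2 + 3 * z.d ^ 2, ?_⟩
    rw [← hK]
    rw [mul_comm 2 i, pow_mul] at h1
    linear_combination h1
  rcases split_dvd hw hs hd with ⟨k, hk⟩ | ⟨k, hk⟩
  · left
    exact ⟨-k, by linear_combination -hk⟩
  · right
    exact ⟨k, by linear_combination hk⟩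

/-! ### Bounds in the real embeddings -/

theorem abs_pi1 : |fp pi1| * |fm pi1| = 2 := by
  rw [← abs_mul, ← N_eq]
  have : N pi1 = 2 := by decide
  rw [this]
  norm_num

theorem abs_pi0 : |fp pi0| * |fm pi0| = 2 := by
  rw [← abs_mul, ← N_eq]
  have : N pi0 = 2 := by decide
  rw [this]
  norm_num

theorem fp_pos {z : OK} (h : z ≠ 0) : 0 < |fp z| := abs_pos.2 fun h1 => h (fp_inj h1)
theorem fm_pos {z : OK} (h : z ≠ 0) : 0 < |fm z| := abs_pos.2 fun h1 => h (fm_inj h1)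

theorem real_id (f : OK →+* ℝ) {K i : ℕ} {z : Ord} (h : nrd (up K z) = pi1 ^ (2 * i)) :
    12 * (|f pi1| ^ i) ^ 2 = 3 * f (tau K z) ^ 2 +
      (|f pi0| ^ K) ^ 2 * (f (cX z) ^ 2 + f (cY z) ^ 2 + 3 * f z.d ^ 2) := by
  have h1 := congrArg f (main_id h)
  have f3 : f 3 = 3 := map_ofNat f 3
  have f12 : f 12 = 12 := map_ofNat f 12
  simp only [map_mul, map_add, map_pow, f3, f12] at h1
  rw [← pow_mul, ← pow_mul, mul_comm i 2, mul_comm K 2, pow_mul |f pi1|, pow_mul |f pi0|, sq_abs,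
    sq_abs, ← pow_mul, ← pow_mul]
  exact h1

theorem abs_le_of_sq {x y : ℝ} (hy : 0 ≤ y) (h : x ^ 2 ≤ y ^ 2) : |x| ≤ y := by
  rw [← abs_of_nonneg hy]
  exact sq_le_sq.1 h

theorem tau_le (f : OK →+* ℝ) {K i : ℕ} {z : Ord} (h : nrd (up K z) = pi1 ^ (2 * i)) :
    |f (tau K z)| ≤ 2 * |f pi1| ^ i := by
  apply abs_le_of_sq (by positivity)
  have h1 := real_id f h
  have h2 : 0 ≤ (|f pi0| ^ K) ^ 2 * (f (cX z) ^ 2 + f (cY z) ^ 2 + 3 * f z.d ^ 2) := by positivity
  nlinarith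

theorem kap_le (f : OK →+* ℝ) (hf : 0 < |f pi0|) {K i n : ℕ} {z : Ord}
    (h : nrd (up K z) = pi1 ^ (2 * i)) {k c : OK} (hc : c = 2 * pi1 ^ i ∨ c = -(2 * pi1 ^ i))
    (hk : tau K z = c + pi0 ^ n * k) : |f k| ≤ 4 * |f pi1| ^ i / |f pi0| ^ n := by
  rw [le_div_iff₀ (by positivity)]
  have h1 := tau_le f h
  have h2 : |f c| = 2 * |f pi1| ^ i := by
    have f2 : f 2 = 2 := map_ofNat f 2
    rcases hc with rfl | rfl
    · rw [map_mul, map_pow, f2, abs_mul, abs_pow]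
      norm_num
    · rw [map_neg, abs_neg, map_mul, map_pow, f2, abs_mul, abs_pow]
      norm_num
  have h3 : |f k| * |f pi0| ^ n = |f (tau K z) - f c| := by
    rw [hk, map_add, add_sub_cancel_left, map_mul, map_pow, abs_mul, abs_pow, mul_comm]
  rw [h3]
  have h4 := abs_sub (f (tau K z)) (f c)
  linarith

theorem d_le (f : OK →+* ℝ) (hf : 0 < |f pi0|) {K i : ℕ} {z : Ord}
    (h : nrd (up K z) = pi1 ^ (2 * i)) : |f z.d| ≤ 2 * |f pi1| ^ i / |f pi0| ^ K := by
  apply abs_le_of_sq (by positivity)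
  have h1 := real_id f h
  rw [div_pow, le_div_iff₀ (by positivity)]
  have h2 : 0 ≤ (|f pi0| ^ K) ^ 2 * (f (cX z) ^ 2 + f (cY z) ^ 2) := by positivity
  have h3 : 0 ≤ f (tau K z) ^ 2 := sq_nonneg _
  nlinarith

theorem n_le (f : OK →+* ℝ) (hf : 0 < |f pi0|) {K i : ℕ} {z : Ord}
    (h : nrd (up K z) = pi1 ^ (2 * i)) :
    f (cX z ^ 2 + cY z ^ 2) ≤ 12 * (|f pi1| ^ i) ^ 2 / (|f pi0| ^ K) ^ 2 := by
  have h1 := real_id f h
  rw [le_div_iff₀ (by positivity), map_add, map_pow, map_pow]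
  have h2 : 0 ≤ (|f pi0| ^ K) ^ 2 * (3 * f z.d ^ 2) := by positivity
  have h3 : 0 ≤ f (tau K z) ^ 2 := sq_nonneg _
  nlinarith

theorem box_count' (A : Finset OK) (c : OK) (m : ℕ) (B1 B2 : ℝ) (q : ℕ) (hB1 : 0 < B1)
    (hB2 : 0 < B2) (hq : 0 < q)
    (h : ∀ z ∈ A, ∃ k, z = c + pi0 ^ m * k ∧ |fp k| ≤ B1 ∧ |fm k| ≤ B2)
    (hB : B1 * B2 ≤ (q : ℝ) ^ 2) : A.card ≤ (2 * q + 1) ^ 2 := by
  classical
  choose! k hk using h
  have h1 : (A.image k).card = A.card := by
    apply Finset.card_image_of_injOn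
    intro x hx y hy hxy
    rw [(hk x hx).1, (hk y hy).1, hxy]
  rw [← h1]
  refine box_count (A.image k) B1 B2 q hB1 hB2 hq ?_ ?_ hB
  · intro z hz
    obtain ⟨x, hx, rfl⟩ := Finset.mem_image.1 hz
    exact (hk x hx).2.1
  · intro z hz
    obtain ⟨x, hx, rfl⟩ := Finset.mem_image.1 hz
    exact (hk x hx).2.2

/-- the three step count -/
theorem count_three (K m i q1 q2 q3 : ℕ) (hK : 2 * K = m + 4) (h1 : 0 < q1) (h2 : 0 < q2)
    (h3 : 0 < q3) (hq1 : (16 : ℝ) * 2 ^ i / 2 ^ (m + 2) ≤ (q1 : ℝ) ^ 2)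
    (hq2 : (4 : ℝ) * 2 ^ i / 2 ^ K ≤ (q2 : ℝ) ^ 2)
    (hq3 : 2 * (144 * (2 ^ i) ^ 2 / (2 ^ K) ^ 2) ≤ (q3 : ℝ) ^ 6) (A : Finset Ord)
    (hA : ∀ z ∈ A, nrd (up K z) = pi1 ^ (2 * i)) :
    A.card ≤ (32 * (2 * q3 + 1) ^ 2 * (2 * q2 + 1) ^ 2) * (2 * (2 * q1 + 1) ^ 2) := by
  classical
  have a1 := fp_pos pi1_ne
  have a2 := fm_pos pi1_ne
  have g1 := fp_pos pi0_ne
  have g2 := fm_pos pi0_ne
  -- the values of `τ`
  have hT : (A.image (tau K)).card ≤ 2 * (2 * q1 + 1) ^ 2 := by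
    set T := A.image (tau K) with hTdef
    set T1 := T.filter (fun t => ∃ k, t = 2 * pi1 ^ i + pi0 ^ (m + 2) * k) with hT1
    set T2 := T.filter (fun t => ¬ ∃ k, t = 2 * pi1 ^ i + pi0 ^ (m + 2) * k) with hT2
    have hcard : T.card = T1.card + T2.card := (Finset.card_filter_add_card_filter_not _).symm
    have hBB : 4 * |fp pi1| ^ i / |fp pi0| ^ (m + 2) * (4 * |fm pi1| ^ i / |fm pi0| ^ (m + 2))
        ≤ (q1 : ℝ) ^ 2 := by
      refine le_trans (le_of_eq ?_) hq1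
      rw [div_mul_div_comm, ← mul_pow, abs_pi0]
      congr 1
      have : 4 * |fp pi1| ^ i * (4 * |fm pi1| ^ i) = 16 * (|fp pi1| * |fm pi1|) ^ i := by
        rw [mul_pow]; ring
      rw [this, abs_pi1]
    have c1 : T1.card ≤ (2 * q1 + 1) ^ 2 := by
      refine box_count' T1 (2 * pi1 ^ i) (m + 2) _ _ q1 (by positivity) (by positivity) h1 ?_ hBB
      intro t ht
      rw [hT1, Finset.mem_filter, hTdef, Finset.mem_image] at ht
      obtain ⟨⟨z, hz, rfl⟩, k, hk⟩ := ht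
      exact ⟨k, hk, kap_le fp g1 (hA z hz) (Or.inl rfl) hk, kap_le fm g2 (hA z hz) (Or.inl rfl) hk⟩
    have c2 : T2.card ≤ (2 * q1 + 1) ^ 2 := by
      refine box_count' T2 (-(2 * pi1 ^ i)) (m + 2) _ _ q1 (by positivity) (by positivity) h1 ?_ hBB
      intro t ht
      rw [hT2, Finset.mem_filter, hTdef, Finset.mem_image] at ht
      obtain ⟨⟨z, hz, rfl⟩, hk⟩ := ht
      rcases tau_cases hK (hA z hz) with h | ⟨k, hk'⟩
      · exact absurd h hk
      · exact ⟨k, hk', kap_le fp g1 (hA z hz) (Or.inr rfl) hk',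
          kap_le fm g2 (hA z hz) (Or.inr rfl) hk'⟩
    omega
  -- the fibres
  have hfib : ∀ t ∈ A.image (tau K), (A.filter (fun z => tau K z = t)).card ≤
      32 * (2 * q3 + 1) ^ 2 * (2 * q2 + 1) ^ 2 := by
    intro t _
    set B := A.filter (fun z => tau K z = t) with hB
    have hD : (B.image Om.d).card ≤ (2 * q2 + 1) ^ 2 := by
      refine box_count (B.image Om.d) (2 * |fp pi1| ^ i / |fp pi0| ^ K)
        (2 * |fm pi1| ^ i / |fm pi0| ^ K) q2 (by positivity) (by positivity) h2 ?_ ?_ ?_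
      · intro x hx
        obtain ⟨z, hz, rfl⟩ := Finset.mem_image.1 hx
        exact d_le fp g1 (hA z (Finset.mem_filter.1 hz).1)
      · intro x hx
        obtain ⟨z, hz, rfl⟩ := Finset.mem_image.1 hx
        exact d_le fm g2 (hA z (Finset.mem_filter.1 hz).1)
      · refine le_trans (le_of_eq ?_) hq2
        rw [div_mul_div_comm, ← mul_pow, abs_pi0]
        congr 1
        have : 2 * |fp pi1| ^ i * (2 * |fm pi1| ^ i) = 4 * (|fp pi1| * |fm pi1|) ^ i := by
          rw [mul_pow]; ring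
        rw [this, abs_pi1]
    have hfib2 : ∀ d ∈ B.image Om.d, (B.filter (fun z => z.d = d)).card ≤
        32 * (2 * q3 + 1) ^ 2 := by
      intro d hd
      obtain ⟨z0, hz0, hz0d⟩ := Finset.mem_image.1 hd
      set D := B.filter (fun z => z.d = d) with hDdef
      have hinj : (D.image (fun z => (cX z, cY z))).card = D.card := by
        apply Finset.card_image_of_injOn
        intro x hx y hy hxy
        rw [Finset.mem_coe, hDdef, Finset.mem_filter, hB, Finset.mem_filter] at hx hy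
        have e := Prod.ext_iff.1 hxy
        exact eq_of_coords (hx.1.2.trans hy.1.2.symm) (hx.2.trans hy.2.symm) e.1 e.2
      rw [← hinj]
      have hz0' : z0 ∈ A ∧ tau K z0 = t := Finset.mem_filter.1 hz0
      refine circle_count _ (cX z0 ^ 2 + cY z0 ^ 2) q3 h3 ?_ ?_
      · intro P hP
        obtain ⟨z, hz, rfl⟩ := Finset.mem_image.1 hP
        rw [hDdef, Finset.mem_filter, hB, Finset.mem_filter] at hz
        have e1 := main_id (hA z hz.1.1)
        have e2 := main_id (hA z0 hz0'.1)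
        rw [hz.1.2, hz.2] at e1
        rw [hz0'.2, hz0d] at e2
        show cX z ^ 2 + cY z ^ 2 = cX z0 ^ 2 + cY z0 ^ 2
        apply mul_left_cancel₀ (pow_ne_zero (2 * K) pi0_ne)
        linear_combination e2 - e1
      · have e1 := n_le fp g1 (hA z0 hz0'.1)
        have e2 := n_le fm g2 (hA z0 hz0'.1)
        have p2 : 0 ≤ fm (cX z0 ^ 2 + cY z0 ^ 2) := by
          rw [map_add, map_pow, map_pow]; positivity
        have e3 := mul_le_mul e1 e2 p2 (by positivity)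
        refine le_trans (mul_le_mul_of_nonneg_left e3 (by norm_num)) (le_trans (le_of_eq ?_) hq3)
        congr 1
        rw [div_mul_div_comm, ← mul_pow (|fp pi0| ^ K), ← mul_pow |fp pi0|, abs_pi0]
        congr 1
        have : 12 * (|fp pi1| ^ i) ^ 2 * (12 * (|fm pi1| ^ i) ^ 2) =
            144 * ((|fp pi1| * |fm pi1|) ^ i) ^ 2 := by
          rw [mul_pow]; ring
        rw [this, abs_pi1]
    have key := Finset.card_le_mul_card_image (f := Om.d) B (32 * (2 * q3 + 1) ^ 2) hfib2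
    exact key.trans (Nat.mul_le_mul_left _ hD)
  have key := Finset.card_le_mul_card_image (f := tau K) A _ hfib
  exact key.trans (Nat.mul_le_mul_left _ hT)

/-- no solutions if the quotient is deep -/
theorem no_small_sol {K m i : ℕ} (hK : 2 * K = m + 4) (hi : 1 ≤ i)
    (hs : (16 : ℝ) * 2 ^ i / 2 ^ (m + 2) < 1) {z : Ord} (h : nrd (up K z) = pi1 ^ (2 * i))
    (hr : red1 (up K z) ≠ 0) : False := by
  have g1 := fp_pos pi0_ne
  have g2 := fm_pos pi0_ne
  have hk0 : ∀ k c : OK, (c = 2 * pi1 ^ i ∨ c = -(2 * pi1 ^ i)) →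
      tau K z = c + pi0 ^ (m + 2) * k → k = 0 := by
    intro k c hc hk
    apply N_abs_lt_one
    have e1 := kap_le fp g1 h hc hk
    have e2 := kap_le fm g2 h hc hk
    refine lt_of_le_of_lt (mul_le_mul e1 e2 (abs_nonneg _) (by positivity)) ?_
    refine lt_of_le_of_lt (le_of_eq ?_) hs
    rw [div_mul_div_comm, ← mul_pow, abs_pi0]
    congr 1
    have : 4 * |fp pi1| ^ i * (4 * |fm pi1| ^ i) = 16 * (|fp pi1| * |fm pi1|) ^ i := by
      rw [mul_pow]; ring
    rw [this, abs_pi1]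
  have hsq : tau K z ^ 2 = 4 * pi1 ^ (2 * i) := by
    rcases tau_cases hK h with ⟨k, hk⟩ | ⟨k, hk⟩
    · rw [hk, hk0 k _ (Or.inl rfl) hk]
      rw [mul_comm 2 i, pow_mul]
      ring
    · rw [hk, hk0 k _ (Or.inr rfl) hk]
      rw [mul_comm 2 i, pow_mul]
      ring
  have h1 := main_id h
  rw [hsq] at h1
  have h2 : pi0 ^ (2 * K) * (cX z ^ 2 + cY z ^ 2 + 3 * z.d ^ 2) = 0 := by
    linear_combination -h1
  have h3 := (mul_eq_zero.1 h2).resolve_left (pow_ne_zero _ pi0_ne)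
  have h4 := congrArg fp h3
  have f3 : fp 3 = 3 := map_ofNat fp 3
  simp only [map_add, map_mul, map_pow, map_zero, f3] at h4
  have hd : z.d = 0 := fp_inj (by nlinarith [sq_nonneg (fp (cX z)), sq_nonneg (fp (cY z)), sq_nonneg (fp z.d)])
  have hX : cX z = 0 := fp_inj (by nlinarith [sq_nonneg (fp (cX z)), sq_nonneg (fp (cY z)), sq_nonneg (fp z.d)])
  have hY : cY z = 0 := fp_inj (by nlinarith [sq_nonneg (fp (cX z)), sq_nonneg (fp (cY z)), sq_nonneg (fp z.d)])
  have hc : z.c = 0 := by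
    unfold cY at hY
    rw [hd, add_zero] at hY
    exact (mul_eq_zero.1 hY).resolve_left two_ne
  have hb : z.b = 0 := by
    unfold cX at hX
    rw [hd, hc, mul_zero, add_zero, mul_zero, add_zero] at hX
    exact (mul_eq_zero.1 hX).resolve_left three_ne
  have hz : up K z = sc z.a := by
    unfold up
    rw [hb, hc, hd, mul_zero]
    rfl
  have ha : r1 z.a = 0 := by
    rw [hz] at h
    have e1 : z.a ^ 2 = pi1 ^ (2 * i) := by
      rw [← h]; unfold sc; rw [nrd_C]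
    have e2 := congrArg r1 e1
    rw [map_pow, map_pow] at e2
    have e3 : r1 pi1 = 0 := by decide
    rw [e3, zero_pow (by omega)] at e2
    exact pow_eq_zero_iff two_ne_zero |>.1 e2
  apply hr
  rw [hz]
  have := red1_sc_mul z.a 1
  rw [mul_one, ha] at this
  rw [this]
  have h9 : (Om.C 1 (0 : ZMod 2)) = (0 : Om (ZMod 2) 1) := rfl
  rw [h9, zero_mul]

/-- the set of solutions attached to the trivial words -/
theorem exists_sol (K i : ℕ) : ∃ A : Finset Ord, TT K (2 * i) ≤ A.card ∧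
    ∀ z ∈ A, nrd (up K z) = pi1 ^ (2 * i) ∧ red1 (up K z) ≠ 0 := by
  classical
  set F := (red (2 * i)).filter (fun W => cl K W = 1) with hF
  have hex : ∀ W ∈ F, ∃ z : Ord, gprod W = up K z := by
    intro W hW
    exact exists_up (Finset.mem_filter.1 hW).2
  choose! z hz using hex
  refine ⟨F.image z, ?_, ?_⟩
  · rw [Finset.card_image_of_injOn]
    · exact le_of_eq (by unfold TT; rw [hF])
    · intro W hW V hV e
      have h1 := hz W hW
      have h2 := hz V hV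
      rw [e, ← h2] at h1
      have h3 := mem_red.1 (Finset.mem_filter.1 hW).1
      have h4 := mem_red.1 (Finset.mem_filter.1 hV).1
      exact gprod_inj W V (h3.1.trans h4.1.symm) h3.2 h4.2 h1
  · intro x hx
    obtain ⟨W, hW, rfl⟩ := Finset.mem_image.1 hx
    have h3 := mem_red.1 (Finset.mem_filter.1 hW).1
    rw [← hz W hW]
    refine ⟨?_, ?_⟩
    · rw [nrd_gprod, h3.1]
    · rw [red1_gprod]
      exact rp_ne W h3.2

end Pool.Agent.H3.Bell2
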